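import Pool.Agent.MP_df844f_gt.Spec

/-! Sweeping a face cycle. -/

namespace Pool.Agent.MP_df844f_gt

open PS

namespace SweepA

variable {B : Type} [MulAction W B] {Y : PS B}

theorem add_self (u : Y.Chain) : u + u = 0 := by
  ext c; simp only [Finsupp.add_apply, F2_add_self, Finsupp.zero_apply]

theorem toggle (Z : Finset Y.Om) (x : Y.Om) : ∃ Z' : Finset Y.Om,
    Y.ch0 Z' = Y.ch0 Z + Finsupp.single (Y.cell x ∅) 1 ∧ Z'.card ≤ Z.card + 1 ∧
      ∀ z ∈ Z', z = x ∨ z ∈ Z := by
  classical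
  by_cases h : x ∈ Z
  · refine ⟨Z.erase x, ?_, (Finset.card_erase_le).trans (Nat.le_succ _),
      fun z hz => Or.inr (Finset.mem_of_mem_erase hz)⟩
    unfold ch0
    rw [← Finset.sum_erase_add Z _ h, add_assoc, add_self, add_zero]
  · refine ⟨insert x Z, ?_, Finset.card_insert_le _ _, fun z hz => Finset.mem_insert.1 hz⟩
    unfold ch0
    rw [Finset.sum_insert h, add_comm]

theorem supp_bd (x : Y.Om) {c : Y.Cell}
    (h : c ∈ (Y.bd (Finsupp.single (Y.cell x ∅) 1)).support) : ∃ s, c = Y.cell x {s} := by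
  classical
  rw [bd_single] at h
  obtain ⟨t, _, ht⟩ := Finset.mem_biUnion.1 (Finsupp.support_finsetSum h)
  exact ⟨t, Finset.mem_singleton.1 (Finsupp.support_single_subset ht)⟩

theorem push_id (u : Y.Chain) : (Hom.id Y).push u = u := by
  induction u using Finsupp.induction_linear with
  | zero => simp
  | add a b ha hb => simp only [map_add, ha, hb]
  | single c a =>
    obtain ⟨x, J, rfl⟩ := cell_ind c
    rw [EHom.push_single]; rfl

end SweepA

theorem sweep0 (st : StepS) : Sweep0S := by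
  intro B _ o R hT Y x0 w0 m n u hY hw
  induction m generalizing n u with
  | zero =>
    intro _ hc _ _
    have : u = 0 := by simpa using hc
    exact Or.inl ⟨∅, by simp [ch0, this], le_rfl, by simp⟩
  | succ m ih =>
    intro hR hc hs hb
    by_cases h0 : u = 0
    · exact Or.inl ⟨∅, by simp [ch0, h0], by simp, by simp⟩
    rcases st B o n (hT.mono (by omega)) Y x0 w0 u hY hw hs hb h0 with ⟨x, hx, hlt⟩ | h
    · have hs' : ∀ c ∈ (u + Y.bd (Finsupp.single (Y.cell x ∅) 1)).support,
          ∃ y s, c = Y.cell y {s} ∧ Y.Near (n + 1) x0 y := by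
        intro c hc'
        rcases Finset.mem_union.1 (Finsupp.support_add hc') with k | k
        · obtain ⟨y, s, e, hy⟩ := hs c k
          exact ⟨y, s, e, hy.mono (by omega)⟩
        · obtain ⟨s, e⟩ := SweepA.supp_bd x k
          exact ⟨x, s, e, hx⟩
      rcases ih (n + 1) _ (by omega) (by omega) hs' (by rw [map_add, hb, bd_bd, add_zero]) with
        ⟨Z, h1, h2, h3⟩ | h
      · obtain ⟨Z', k1, k2, k3⟩ := SweepA.toggle Z x
        refine Or.inl ⟨Z', ?_, by omega, fun z hz => ?_⟩
        · rw [k1, map_add, h1, add_assoc, SweepA.add_self, add_zero]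
        · rcases k3 z hz with rfl | k
          · exact hx.mono (by omega)
          · exact (h3 z k).mono (by omega)
      · exact Or.inr h
    · exact Or.inr h

theorem sweep (s0 : Sweep0S) (att : AttS) (cl : ClosS) : SweepS := by
  intro B _ o R hT Y x0 w0 m n u hY hw hR hc hs hb
  induction hA : Y.area using Nat.strong_induction_on generalizing Y with
  | _ A ih =>
    rcases s0 B o R hT Y x0 w0 m n u hY hw hR hc hs hb with ⟨Z, h1, h2, h3⟩ | ⟨J, y, b, h⟩
    · exact ⟨Y, Hom.id Y, Z, hY, Hom.good_id, Hom.ctl_id, by rw [h1, SweepA.push_id], h2, h3⟩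
    · obtain ⟨Y1, φ1, g1, c1, n1⟩ := att B Y J y b h
      obtain ⟨Y2, φ2, s2, g2, c2, _⟩ := cl B Y1
      have a1 := c1.area
      have a2 := c2.area
      have hs' : ∀ c ∈ ((φ1.comp φ2).push u).support,
          ∃ x s, c = Y2.cell x {s} ∧ Y2.Near n ((φ1.comp φ2).π x0) x := by
        intro c hc'
        obtain ⟨c0, k, rfl⟩ := Finset.mem_image.1 ((φ1.comp φ2).support_push u hc')
        obtain ⟨x, s, rfl, hx⟩ := hs c0 k
        exact ⟨_, s, rfl, hx.map _⟩
      obtain ⟨Y3, ψ, Z, s3, g3, c3, h1, h2, h3⟩ := ih Y2.area (by omega) Y2 ((φ1.comp φ2).π x0)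
        ((φ1.comp φ2).push u) s2 (by rw [Hom.f_π, hw])
        (((φ1.comp φ2).card_support_push u).trans hc) hs'
        (by rw [← EHom.push_bd, hb, map_zero]) rfl
      refine ⟨Y3, (φ1.comp φ2).comp ψ, Z, s3, (g1.comp g2).comp g3, (c1.comp c2).comp c3, ?_, h2,
        h3⟩
      rw [h1]
      exact (EHom.push_comp _ _ u).symm

end Pool.Agent.MP_df844f_gt
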