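import Pool.Agent.MP_df844f_gt.Spec

/-! Small boundary components of tight states bound beads. -/

namespace Pool.Agent.MP_df844f_gt

open PS

namespace BeadA

variable {B : Type} [MulAction W B] {Y : PS B}

theorem one_eq {x y : Y.Om} {s t : S} (h : Y.cell x {s} = Y.cell y {t}) : s = t :=
  Finset.singleton_injective (cell_eq_iff.1 h).1

theorem ch1_apply (hY : Y.State) (D : Finset (Y.Om × S)) (hD : ∀ p ∈ D, Y.Free p.1 p.2)
    (y : Y.Om) (s : S) [Decidable ((y, s) ∈ D)] :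
    Y.ch1 D (Y.cell y {s}) = if (y, s) ∈ D then 1 else 0 := by
  classical
  unfold ch1
  rw [Finsupp.finsetSum_apply]
  have : ∀ p ∈ D, (Finsupp.single (Y.cell p.1 {p.2}) (1 : F2)) (Y.cell y {s}) =
      if p = (y, s) then 1 else 0 := by
    intro p hp
    rw [Finsupp.single_apply]
    refine if_congr ⟨fun h => ?_, fun h => by rw [h]⟩ rfl rfl
    obtain ⟨x, t⟩ := p
    obtain rfl : t = s := one_eq h
    rcases hY.cell_one.1 h with k | k
    · rw [k]
    · exact absurd ⟨y, k⟩ (hD _ hp)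
  rw [Finset.sum_congr rfl this, Finset.sum_ite_eq']
  split_ifs <;> rfl

open Classical in
theorem bd0_apply (Z : Finset Y.Om) (y : Y.Om) (s : S) :
    Y.bd (Y.ch0 Z) (Y.cell y {s}) =
      ∑ x ∈ Z, if Y.cell y {s} = Y.cell x {s} then (1 : F2) else 0 := by
  rw [bd_ch0, Finsupp.finsetSum_apply]
  refine Finset.sum_congr rfl fun x _ => ?_
  rw [Finsupp.finsetSum_apply, Finset.sum_eq_single s]
  · rw [Finsupp.single_apply]
    exact if_congr eq_comm rfl rfl
  · intro t _ ht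
    rw [Finsupp.single_apply, if_neg fun h => ht (one_eq h)]
  · intro h
    exact absurd (Finset.mem_univ s) h

theorem bd0_free (hY : Y.State) (Z : Finset Y.Om) {y : Y.Om} {s : S} (h : Y.Free y s)
    [Decidable (y ∈ Z)] : Y.bd (Y.ch0 Z) (Y.cell y {s}) = if y ∈ Z then 1 else 0 := by
  classical
  rw [bd0_apply]
  have : ∀ x ∈ Z, (if Y.cell y {s} = Y.cell x {s} then (1 : F2) else 0) =
      if x = y then 1 else 0 := by
    intro x _
    refine if_congr ⟨fun k => ?_, fun k => by rw [k]⟩ rfl rfl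
    rcases hY.cell_one.1 k with q | q
    · exact q
    · exact absurd ⟨x, q⟩ h
  rw [Finset.sum_congr rfl this, Finset.sum_ite_eq']
  split_ifs <;> rfl

theorem bd0_edge (hY : Y.State) (Z : Finset Y.Om) {y y' : Y.Om} {s : S}
    (h : Y.e s y y') (h1 : y ∈ Z) (h2 : y' ∉ Z) : Y.bd (Y.ch0 Z) (Y.cell y {s}) = 1 := by
  classical
  rw [bd0_apply]
  have : ∀ x ∈ Z, (if Y.cell y {s} = Y.cell x {s} then (1 : F2) else 0) =
      if x = y then 1 else 0 := by
    intro x hx
    refine if_congr ⟨fun k => ?_, fun k => by rw [k]⟩ rfl rfl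
    rcases hY.cell_one.1 k with q | q
    · exact q
    · exact absurd (hY.fold h q ▸ hx) h2
  rw [Finset.sum_congr rfl this, Finset.sum_ite_eq', if_pos h1]

theorem supp_ch1 (D : Finset (Y.Om × S)) :
    (Y.ch1 D).support ⊆ D.image fun p => Y.cell p.1 {p.2} := by
  classical
  intro c hc
  obtain ⟨p, hp, k⟩ := Finset.mem_biUnion.1 (Finsupp.support_finsetSum hc)
  exact Finset.mem_image.2 ⟨p, hp, (Finset.mem_singleton.1 (Finsupp.support_single_subset k)).symm⟩

end BeadA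

theorem bead (s0 : Sweep0S) (att : AttS) (cl : ClosS) (ed : EdgeS) (bd : BdS) : BeadS := by
  classical
  intro S0
  refine ⟨2 * (3 * S0) + 20, ?_⟩
  intro B _ o hT hTh Y x0 r hY ht T hc hne hS hcl
  have hB : Loc B := loc_of hT (hTh.mono (by omega))
  obtain ⟨p0, hp0⟩ := hne
  obtain ⟨w0, hw0⟩ := hT (Y.f p0.1)
  have hb : Y.bd (Y.ch1 T) = 0 := by
    rw [← Finsupp.support_eq_empty, Finset.eq_empty_iff_forall_notMem]
    intro c hc'
    obtain ⟨p, hp, t, h1, h2, h3⟩ := (bd B hB Y hY T hc.1 c).1 hc'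
    obtain ⟨y, u, v, k1, k2, k3, k4, -⟩ := ed B hB Y hY p.1 p.2 t h1 (hc.1 p hp)
    exact k3 (h3 (y, u) (hcl p hp (y, u) ⟨hc.1 p hp, k1, t, v, h1, k2, k4.symm⟩) v k2
      (k4.trans h2.symm))
  have hs : ∀ c ∈ (Y.ch1 T).support, ∃ x s, c = Y.cell x {s} ∧ Y.Near (2 * S0) p0.1 x := by
    intro c hc'
    obtain ⟨p, hp, rfl⟩ := Finset.mem_image.1 (BeadA.supp_ch1 T hc')
    exact ⟨p.1, p.2, rfl, (hY.bconn_near hc hp0 hp).mono (by omega)⟩
  rcases s0 B o (3 * S0) hTh Y p0.1 w0 S0 (2 * S0) (Y.ch1 T) hY hw0 (by omega)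
    ((Finset.card_le_card (BeadA.supp_ch1 T)).trans (Finset.card_image_le.trans hS)) hs hb with
    ⟨Z, h1, -, h3⟩ | ⟨J, y, b, h⟩
  · have hl : ∀ z, ∃ w, z ∈ Z → w • o = Y.f z ∧ d w0 w ≤ 2 * S0 + S0 := by
      intro z
      by_cases hz : z ∈ Z
      · obtain ⟨w, hw⟩ := (h3 z hz).lift hw0
        exact ⟨w, fun _ => hw⟩
      · exact ⟨1, fun k => absurd k hz⟩
    choose pos hpos using hl
    have hsh : Y.Shut (Z : Set Y.Om) := by
      intro s x y he hx
      by_contra hy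
      have k := BeadA.bd0_edge hY Z he hx hy
      rw [h1, BeadA.ch1_apply hY T hc.1, if_neg fun q => hc.1 _ q ⟨y, he⟩] at k
      exact zero_ne_one k
    refine ⟨(Z : Set Y.Om), pos, ⟨hsh, fun z hz => (hpos z hz).1, fun s z hz z' he => ?_,
      fun z hz z' hz' => ⟨_, (h3 z hz).symm.trans (h3 z' hz')⟩⟩, fun p => ?_⟩
    · have hz' : z' ∈ Z := hsh s z z' he hz
      refine hTh _ _ (by rw [mul_smul, (hpos z hz).1, (hpos z' hz').1, Y.e_f he]) ?_
      have a1 := (hpos z hz).2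
      have a2 := (hpos z' hz').2
      have a3 := d_triangle (pos z') w0 (g s * pos z)
      have a4 := d_triangle w0 (pos z) (g s * pos z)
      rw [d_g_mul] at a4
      rw [d_comm (pos z') w0] at a3
      omega
    · have key : Y.Free p.1 p.2 → (p ∈ T ↔ p.1 ∈ Z) := by
        intro hf
        have k := BeadA.bd0_free hY Z hf
        rw [h1, BeadA.ch1_apply hY T hc.1] at k
        by_cases a : (p.1, p.2) ∈ T <;> by_cases b : p.1 ∈ Z
        · exact ⟨fun _ => b, fun _ => a⟩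
        · rw [if_pos a, if_neg b] at k; exact absurd k one_ne_zero
        · rw [if_neg a, if_pos b] at k; exact absurd k zero_ne_one
        · exact ⟨fun q => absurd q a, fun q => absurd q b⟩
      exact ⟨fun q => ⟨(key (hc.1 p q)).1 q, hc.1 p q⟩, fun q => (key q.2).2 q.1⟩
  · exfalso
    obtain ⟨Y1, φ1, g1, c1, n1⟩ := att B Y J y b h
    obtain ⟨Y2, φ2, s2, g2, c2, n2⟩ := cl B Y1
    have a1 := c1.area
    have a2 := c2.area
    have a3 := φ1.vol_le
    have a4 := φ2.vol_le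
    have a5 := ht.move ((φ1.comp φ2).move o (g1.comp g2)) (x0' := (φ1.comp φ2).π x0) rfl s2
      (by omega)
    omega

end Pool.Agent.MP_df844f_gt
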