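import Pool.Agent.MP_df844f_gt.Spec

/-! Counting free sides and the frontier of a set of chambers with a given boundary. -/

namespace Pool.Agent.MP_df844f_gt

open PS

namespace CountA

theorem fibre {α β : Type} [Finite α] (f : α → β) (A : Set α) :
    {p | p ∈ A ∧ ∃ q ∈ A, q ≠ p ∧ f q = f p}.ncard + 2 * (f '' A).ncard ≤ 2 * A.ncard := by
  classical
  lift A to Finset α using Set.toFinite A
  obtain ⟨N, hN⟩ : ∃ N : Finset α, N = A.filter fun p => ∃ q ∈ A, q ≠ p ∧ f q = f p := ⟨_, rfl⟩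
  have e1 : {p | p ∈ (A : Set α) ∧ ∃ q ∈ (A : Set α), q ≠ p ∧ f q = f p} = (N : Set α) := by
    ext p; simp [hN]
  rw [e1, ← Finset.coe_image, Set.ncard_coe_finset, Set.ncard_coe_finset, Set.ncard_coe_finset]
  have h1 : N ⊆ A := by rw [hN]; exact Finset.filter_subset _ _
  have h2 : 2 * (N.image f).card ≤ N.card := by
    refine Finset.mul_card_image_le_card N 2 fun b hb => ?_
    obtain ⟨p, hp, rfl⟩ := Finset.mem_image.1 hb
    have hp' := hp
    rw [hN, Finset.mem_filter] at hp'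
    obtain ⟨a, q, b, c, e⟩ := hp'
    have hq : q ∈ N := by
      rw [hN, Finset.mem_filter]
      exact ⟨b, p, a, c.symm, e.symm⟩
    exact Finset.one_lt_card.2 ⟨q, Finset.mem_filter.2 ⟨hq, e⟩, p, Finset.mem_filter.2 ⟨hp, rfl⟩, c⟩
  have h3 : (A.image f).card ≤ ((A \ N).image f).card + (N.image f).card := by
    refine le_trans (le_of_eq ?_) (Finset.card_union_le _ _)
    rw [← Finset.image_union, Finset.sdiff_union_of_subset h1]
  have h4 := Finset.card_image_le (s := A \ N) (f := f)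
  have h5 := Finset.card_sdiff_add_card_eq_card h1
  omega

theorem sum_ne {ι C : Type} (T : Finset ι) (f : ι → C) (c : C)
    (h : (∑ i ∈ T, Finsupp.single (f i) (1 : F2)) c ≠ 0) : ∃ i ∈ T, f i = c := by
  rw [Finsupp.finsetSum_apply] at h
  obtain ⟨i, hi, k⟩ := Finset.exists_ne_zero_of_sum_ne_zero h
  exact ⟨i, hi, (Finsupp.single_apply_ne_zero.1 k).1.symm⟩

theorem sum_one {ι C : Type} (T : Finset ι) (f : ι → C) {j : ι} (hj : j ∈ T)
    (h : ∀ i ∈ T, f i = f j → i = j) : (∑ i ∈ T, Finsupp.single (f i) (1 : F2)) (f j) = 1 := by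
  rw [Finsupp.finsetSum_apply, Finset.sum_eq_single_of_mem j hj, Finsupp.single_eq_same]
  exact fun i hi k => Finsupp.single_eq_of_ne fun e => k (h i hi e.symm)

variable {B : Type} [MulAction W B] {Y Y' : PS B}

theorem bd_eq (Z : Finset Y.Om) : Y.bd (Y.ch0 Z) =
    ∑ p ∈ Z ×ˢ (Finset.univ : Finset S), Finsupp.single (Y.cell p.1 {p.2}) 1 := by
  rw [bd_ch0, Finset.sum_product]

theorem push_eq (φ : Hom Y Y') (D : Finset (Y.Om × S)) : φ.push (Y.ch1 D) =
    ∑ p ∈ D, Finsupp.single (Y'.cell (φ.π p.1) {p.2}) 1 := by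
  unfold ch1 EHom.push
  rw [map_sum]
  refine Finset.sum_congr rfl fun p _ => ?_
  rw [Finsupp.lmapDomain_apply, Finsupp.mapDomain_single]
  rfl

theorem face (hY : Y.State) {x y : Y.Om} {s t : S} (h : Y.cell y {t} = Y.cell x {s}) :
    t = s ∧ (y = x ∨ Y.e s x y) := by
  obtain rfl : t = s := Finset.singleton_injective (cell_eq_iff.1 h).1
  exact ⟨rfl, hY.cell_one.1 h.symm⟩

theorem face_free (hY : Y.State) {x y : Y.Om} {s t : S} (hx : Y.Free x s)
    (h : Y.cell y {t} = Y.cell x {s}) : (y, t) = (x, s) := by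
  obtain ⟨rfl, rfl | k⟩ := face hY h
  · rfl
  · exact absurd ⟨_, k⟩ hx

/-- The map on sides. -/
def sd (φ : Hom Y Y') (p : Y.Om × S) : Y'.Om × S := (φ.π p.1, p.2)

/-- Sides with free image. -/
def Af (φ : Hom Y Y') : Set (Y.Om × S) := {p | Y'.Free (φ.π p.1) p.2}

theorem area_le (φ : Hom Y Y') : Y'.area ≤ (sd φ '' Af φ).ncard + 12 * φ.new := by
  have h : {p : Y'.Om × S | Y'.Free p.1 p.2} ⊆
      sd φ '' Af φ ∪ {y | y ∉ Set.range φ.π} ×ˢ Set.univ := by
    rintro ⟨y, s⟩ hp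
    by_cases k : y ∈ Set.range φ.π
    · obtain ⟨x, rfl⟩ := k
      exact Or.inl ⟨(x, s), hp, rfl⟩
    · exact Or.inr ⟨k, trivial⟩
  refine (Set.ncard_le_ncard h).trans ((Set.ncard_union_le _ _).trans (le_of_eq ?_))
  rw [Set.ncard_prod, Set.ncard_univ, mul_comm]
  simp [Hom.new]

theorem lost (φ : Hom Y Y') :
    ({p : Y.Om × S | Y.Free p.1 p.2} \ Af φ).ncard + (Af φ).ncard = Y.area :=
  Set.ncard_sdiff_add_ncard_of_subset fun _ hp ⟨_, k⟩ => hp ⟨_, φ.e_π k⟩

end CountA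

open CountA

theorem count : CountS := by
  intro B _ Y Y' φ D E Z _ hY' hD hbd ha
  rw [bd_eq, push_eq] at hbd
  have a1 := area_le φ
  have a2 := lost φ
  have a3 := fibre (sd φ) (Af φ)
  have a4 : (sd φ '' Af φ).ncard ≤ (Af φ).ncard := Set.ncard_image_le
  have a5 : (Af φ).ncard ≤ Y.area := by omega
  constructor
  · obtain ⟨G, hG⟩ : ∃ G : Set (Y.Om × S), ∀ p, p ∈ G ↔
        p ∈ D ∧ p ∈ Af φ ∧ ∀ q, sd φ q = sd φ p → q = p :=
      ⟨{p | p ∈ D ∧ p ∈ Af φ ∧ ∀ q, sd φ q = sd φ p → q = p}, fun _ => Iff.rfl⟩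
    have inj : ∀ p ∈ G, ∀ q : Y.Om × S,
        Y'.cell (φ.π q.1) {q.2} = Y'.cell (φ.π p.1) {p.2} → q = p := fun p hp q e =>
      ((hG p).1 hp).2.2 q (face_free hY' ((hG p).1 hp).2.1 e)
    have b1 : (D : Set (Y.Om × S)) ⊆ (({p : Y.Om × S | Y.Free p.1 p.2} \ Af φ) ∪
        {p | p ∈ Af φ ∧ ∃ q ∈ Af φ, q ≠ p ∧ sd φ q = sd φ p}) ∪
        ({p | p ∈ G ∧ E (Y'.cell (φ.π p.1) {p.2}) = 0} ∪
          {p | p ∈ G ∧ E (Y'.cell (φ.π p.1) {p.2}) ≠ 0}) := by
      intro p hp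
      by_cases c1 : p ∈ Af φ
      · by_cases c2 : ∀ q, sd φ q = sd φ p → q = p
        · have := (hG p).2 ⟨hp, c1, c2⟩
          exact Or.inr ((em _).imp (fun k => ⟨this, k⟩) fun k => ⟨this, k⟩)
        · push Not at c2
          obtain ⟨q, e, k⟩ := c2
          refine Or.inl (Or.inr ⟨c1, q, ?_, k, e⟩)
          show Y'.Free (sd φ q).1 (sd φ q).2
          rw [e]
          exact c1
      · exact Or.inl (Or.inl ⟨hD p hp, c1⟩)
    have b2 : {p | p ∈ G ∧ E (Y'.cell (φ.π p.1) {p.2}) = 0}.ncard ≤ Y'.nF Z := by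
      refine Set.ncard_le_ncard_of_injOn (sd φ) (fun p hp => ?_)
        fun p _ q hq e => ((hG q).1 hq.1).2.2 p e
      have h1 := (hG p).1 hp.1
      have h2 := DFunLike.congr_fun hbd (Y'.cell (φ.π p.1) {p.2})
      rw [Finsupp.add_apply, hp.2, add_zero, sum_one D (fun p => Y'.cell (φ.π p.1) {p.2}) h1.1
        fun q _ e => inj p hp.1 q e] at h2
      obtain ⟨q, hq, e⟩ := sum_ne _ (fun p : Y'.Om × S => Y'.cell p.1 {p.2}) _
        (h2.trans_ne one_ne_zero)
      have h3 := congrArg Prod.fst (face_free hY' h1.2.1 e)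
      exact ⟨show φ.π p.1 ∈ Z from (show q.1 = φ.π p.1 from h3) ▸ (Finset.mem_product.1 hq).1,
        h1.2.1⟩
    have b3 : {p | p ∈ G ∧ E (Y'.cell (φ.π p.1) {p.2}) ≠ 0}.ncard ≤ E.support.card := by
      rw [← Set.ncard_coe_finset]
      exact Set.ncard_le_ncard_of_injOn (fun p => Y'.cell (φ.π p.1) {p.2})
        (fun p hp => Finsupp.mem_support_iff.2 hp.2) fun p _ q hq e => inj q hq.1 p e
    have b4 := (Set.ncard_le_ncard b1).trans ((Set.ncard_union_le _ _).trans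
      (Nat.add_le_add (Set.ncard_union_le _ _) (Set.ncard_union_le _ _)))
    rw [Set.ncard_coe_finset] at b4
    omega
  · have inj : ∀ p : Y'.Om × S, (∃ y, y ∉ (Z : Set Y'.Om) ∧ Y'.e p.2 p.1 y) → ∀ q : Y'.Om × S,
        q.1 ∈ Z → Y'.cell q.1 {q.2} = Y'.cell p.1 {p.2} → q = p := by
      rintro p ⟨y, h1, h2⟩ q hq e
      obtain ⟨e1, e2 | e2⟩ := face hY' e
      · exact Prod.ext e2 e1
      · exact absurd (hY'.fold e2 h2 ▸ hq) h1
    have b1 : Y'.front Z ≤ ((fun p : Y.Om × S => Y'.cell (φ.π p.1) {p.2}) ''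
        ({p : Y.Om × S | Y.Free p.1 p.2} \ Af φ) ∪ (E.support : Set Y'.Cell)).ncard := by
      refine Set.ncard_le_ncard_of_injOn (fun p : Y'.Om × S => Y'.cell p.1 {p.2}) (fun p hp => ?_)
        fun p hp q hq e => inj q hq.2 p hp.1 e
      by_cases c : E (Y'.cell p.1 {p.2}) = 0
      · have h2 := DFunLike.congr_fun hbd (Y'.cell p.1 {p.2})
        rw [Finsupp.add_apply, c, add_zero, sum_one _ (fun p : Y'.Om × S => Y'.cell p.1 {p.2})
          (Finset.mem_product.2 ⟨hp.1, Finset.mem_univ _⟩)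
          fun q hq e => inj p hp.2 q (Finset.mem_product.1 hq).1 e] at h2
        obtain ⟨q, hq, e⟩ := sum_ne _ (fun p : Y.Om × S => Y'.cell (φ.π p.1) {p.2}) _
          (h2.symm.trans_ne one_ne_zero)
        refine Or.inl ⟨q, ⟨hD q hq, fun k => ?_⟩, e⟩
        obtain ⟨y, -, h3⟩ := hp.2
        have h4 : p = sd φ q := face_free hY' k e.symm
        rw [h4] at h3
        exact k ⟨y, h3⟩
      · exact Or.inr (Finsupp.mem_support_iff.2 c)
    have b2 := b1.trans ((Set.ncard_union_le _ _).trans (Nat.add_le_add_right Set.ncard_image_le _))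
    rw [Set.ncard_coe_finset] at b2
    omega

end Pool.Agent.MP_df844f_gt
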