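import Pool.Agent.MP_df844f_gt.Spec

/-! Free sides at a rank 2 cell, and the boundary of a set of free sides. -/

namespace Pool.Agent.MP_df844f_gt

open PS

namespace EdgeA

theorem pair_cases {s t u v : S} (h : adj u v) (e : ({u, v} : Finset S) = {s, t}) :
    (u = s ∧ v = t) ∨ (u = t ∧ v = s) := by
  have h1 : u ∈ ({s, t} : Finset S) := e ▸ Finset.mem_insert_self _ _
  have h2 : v ∈ ({s, t} : Finset S) :=
    e ▸ Finset.mem_insert_of_mem (Finset.mem_singleton_self _)
  have h3 := adj_ne h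
  simp only [Finset.mem_insert, Finset.mem_singleton] at h1 h2
  rcases h1 with rfl | rfl <;> rcases h2 with rfl | rfl <;> simp_all

variable {B : Type} [MulAction W B] {Y : PS B}

theorem orb (hY : Y.State) {x y : Y.Om} {s t u v : S} (h : adj s t) (hx : Y.Free x s)
    (h' : adj u v) (k : Y.cell y {u, v} = Y.cell x {s, t}) :
    ((u = s ∧ v = t) ∨ (u = t ∧ v = s)) ∧ (y = x ∨ y = Y.sg t x ∨ y = Y.sg s (Y.sg t x)) := by
  have e := (cell_eq_iff.1 k).1
  refine ⟨pair_cases h' e, ?_⟩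
  rw [e] at k
  have := hY.orb2 h k.symm
  rw [sg_of_free hx] at this
  tauto

open Classical in
theorem coef (D : Finset (Y.Om × S)) (c : Y.Cell) : Y.bd (Y.ch1 D) c =
    (((D ×ˢ Finset.univ).filter fun z : (Y.Om × S) × S =>
      adj z.1.2 z.2 ∧ Y.cell z.1.1 {z.1.2, z.2} = c).card : F2) := by
  rw [bd_ch1, Finsupp.finsetSum_apply, Finset.card_filter, Nat.cast_sum, Finset.sum_product]
  refine Finset.sum_congr rfl fun p _ => ?_
  rw [Finsupp.finsetSum_apply, Finset.sum_filter]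
  refine Finset.sum_congr rfl fun t _ => ?_
  rw [Finsupp.single_apply]
  by_cases a : adj p.2 t <;> by_cases b : Y.cell p.1 {p.2, t} = c <;> simp [a, b]

end EdgeA

open EdgeA

theorem edgeS : EdgeS := by
  intro B _ hB Y hY x s t h hx
  have hne := adj_ne h
  by_cases a : Y.Free x t
  · refine ⟨x, t, s, a, adj_symm h, fun e => hne (congrArg Prod.snd e).symm,
      by rw [Finset.pair_comm], fun y' u' v' _ h' k => ?_⟩
    obtain ⟨k1, k2⟩ := orb hY h hx h' k
    rw [sg_of_free a, sg_of_free hx] at k2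
    tauto
  have e1 := e_sg a
  have c1 : Y.cell (Y.sg t x) {s, t} = Y.cell x {s, t} := cell_sg x (by simp)
  have n1 : ¬ Y.Free (Y.sg t x) t := fun q => q ⟨x, Y.e_symm e1⟩
  by_cases b : Y.Free (Y.sg t x) s
  · refine ⟨Y.sg t x, s, t, b, h, fun e => e_ne hB e1 (congrArg Prod.fst e).symm, c1,
      fun y' u' v' f h' k => ?_⟩
    obtain ⟨k1, k2⟩ := orb hY h hx h' k
    rw [sg_of_free b] at k2
    rcases k1 with k1 | ⟨rfl, rfl⟩
    · tauto
    · rcases k2 with rfl | rfl | rfl
      · exact absurd f a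
      · exact absurd f n1
      · exact absurd f n1
  have e2 := e_sg b
  refine ⟨Y.sg s (Y.sg t x), t, s, fun ⟨q, e3⟩ => hx ⟨q, Y.e_symm (hY.close (adj_symm h) e1 e2 e3)⟩,
    adj_symm h, fun e => hne (congrArg Prod.snd e).symm,
    by rw [Finset.pair_comm, cell_sg _ (by simp), c1], fun y' u' v' f h' k => ?_⟩
  obtain ⟨k1, k2⟩ := orb hY h hx h' k
  rcases k1 with ⟨rfl, rfl⟩ | ⟨rfl, rfl⟩ <;> rcases k2 with rfl | rfl | rfl
  · exact Or.inl ⟨rfl, rfl, rfl⟩
  · exact absurd f b
  · exact absurd ⟨_, Y.e_symm e2⟩ f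
  · exact absurd f a
  · exact absurd f n1
  · exact Or.inr ⟨rfl, rfl, rfl⟩

theorem bdS (ed : EdgeS) : BdS := by
  classical
  intro B _ hB Y hY D hD c
  rw [Finsupp.mem_support_iff, coef]
  generalize hT : ((D ×ˢ Finset.univ).filter fun z : (Y.Om × S) × S =>
      adj z.1.2 z.2 ∧ Y.cell z.1.1 {z.1.2, z.2} = c) = T
  have mT : ∀ p t, (p, t) ∈ T ↔ p ∈ D ∧ adj p.2 t ∧ Y.cell p.1 {p.2, t} = c := fun p t => by
    rw [← hT]; simp
  constructor
  · intro h
    obtain ⟨⟨p, t⟩, hz⟩ : T.Nonempty := by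
      rw [Finset.nonempty_iff_ne_empty]
      rintro rfl
      simp at h
    obtain ⟨hp, a, e⟩ := (mT p t).1 hz
    obtain ⟨y, u, v, -, a', ne, e', hu⟩ := ed B hB Y hY p.1 p.2 t a (hD p hp)
    refine ⟨p, hp, t, a, e.symm, fun q hq t' b f => ?_⟩
    rcases hu q.1 q.2 t' (hD q hq) b (f.trans e.symm) with ⟨k1, k2, -⟩ | ⟨k1, k2, k3⟩
    · exact Prod.ext k1 k2
    · exfalso
      have hT2 : T = {(p, t), (q, t')} := by
        ext ⟨q', t''⟩
        rw [Finset.mem_insert, Finset.mem_singleton]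
        constructor
        · intro hm
          obtain ⟨hq', b', f'⟩ := (mT _ _).1 hm
          rcases hu q'.1 q'.2 t'' (hD q' hq') b' (f'.trans e.symm) with ⟨j1, j2, j3⟩ | ⟨j1, j2, j3⟩
          · exact Or.inl (Prod.ext (Prod.ext j1 j2) j3)
          · exact Or.inr (Prod.ext (Prod.ext (j1.trans k1.symm) (j2.trans k2.symm))
              (j3.trans k3.symm))
        · rintro (j | j) <;> rw [j]
          · exact hz
          · exact (mT _ _).2 ⟨hq, b, f⟩
      rw [hT2, Finset.card_pair] at h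
      · exact h (by decide)
      · intro j
        have j1 : p = q := congrArg Prod.fst j
        exact ne (by rw [← k1, ← k2, j1])
  · rintro ⟨p, hp, t, a, e, hu'⟩
    obtain ⟨y, u, v, -, a', ne, e', hu⟩ := ed B hB Y hY p.1 p.2 t a (hD p hp)
    have hT1 : T = {(p, t)} := by
      ext ⟨q, t'⟩
      rw [Finset.mem_singleton]
      constructor
      · intro hm
        obtain ⟨hq, b, f⟩ := (mT _ _).1 hm
        obtain rfl := hu' q hq t' b f
        rcases hu q.1 q.2 t' (hD q hq) b (f.trans e) with ⟨-, -, k3⟩ | ⟨k1, k2, -⟩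
        · rw [k3]
        · exact absurd (by rw [← k1, ← k2]) ne
      · intro j
        rw [j]
        exact (mT _ _).2 ⟨hp, a, e.symm⟩
    rw [hT1, Finset.card_singleton]
    decide

end Pool.Agent.MP_df844f_gt
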