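import Pool.Agent.MP_df844f_gt.Spec2

/-! The isoperimetric inequality for connected sets of free sides in a tight state. -/

namespace Pool.Agent.MP_df844f_gt

open PS

namespace GainA

variable {B : Type} [MulAction W B] {Y Y' : PS B}

theorem card_ch1 (D : Finset (Y.Om × S)) : (Y.ch1 D).support.card ≤ D.card := by
  classical
  refine le_trans (Finset.card_le_card (t := D.image fun p => Y.cell p.1 {p.2}) ?_)
    Finset.card_image_le
  intro c hc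
  obtain ⟨p, hp, k⟩ := Finset.mem_biUnion.1 (Finsupp.support_finsetSum hc)
  exact Finset.mem_image.2 ⟨p, hp, (Finset.mem_singleton.1 (Finsupp.support_single_subset k)).symm⟩

theorem ends_le (φ : Hom Y Y') (x0 : Y.Om) (U : Set Y.Om) (Z : Set Y'.Om)
    (h : ∀ x, φ.π x ∈ Z → x ∈ U) : Y'.ends (φ.π x0) Z ≤ Y.ends x0 U := by
  refine Set.ncard_le_ncard_of_injOn (Option.map φ.α.symm) (fun a ha => h _ ?_)
    ((Option.map_injective φ.α.symm.injective).injOn)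
  cases a with
  | none => exact ha
  | some a =>
    show φ.π (Y.src (φ.α.symm a)) ∈ Z
    rw [← φ.src_α, Equiv.apply_symm_apply]
    exact ha

end GainA

open GainA in
theorem gain (ca : Cap2S) (sw : Sweep2S) (co : CountS) (re : RemS) (la : LamS) : GainS := by
  classical
  obtain ⟨CK, ca⟩ := ca
  obtain ⟨CQ, re⟩ := re
  refine ⟨(102 + 48 * CQ) * CK + CQ + 1, fun H m0 => ?_⟩
  obtain ⟨ρ, ca⟩ := ca m0
  obtain ⟨κ0, hκ0⟩ : ∃ κ0, κ0 = CK * m0 := ⟨_, rfl⟩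
  obtain ⟨R0, hR0⟩ : ∃ R0, R0 = 3 * m0 + 13 * κ0 := ⟨_, rfl⟩
  refine ⟨R0 + 24 * (13 * κ0 + H * (36 * κ0)), 19 * κ0 + 1 + CQ * (48 * κ0 + m0),
    ρ + (2 * R0 + 20), ?_⟩
  intro B _ _ o tr th ex Y x0 r μ hY hI hv hT D hD hm
  by_contra hc
  obtain ⟨b, hb⟩ : ∃ b, b = (Y.bd (Y.ch1 D)).support.card := ⟨_, rfl⟩
  obtain ⟨en, hen⟩ : ∃ en, en = Y.endsN x0 (R0 + 24 * (13 * κ0 + H * (36 * κ0))) D := ⟨_, rfl⟩
  rw [← hb, ← hen, not_le] at hc
  have hbe : b + en ≤ m0 :=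
    (Nat.le_mul_of_pos_left (b + en) (Nat.succ_pos _)).trans (hc.le.trans hm)
  obtain ⟨p0, hp0⟩ := Finset.card_pos.1 (Nat.zero_lt_of_lt hc)
  obtain ⟨Y1, φ1, κ, E, s1, g1, c1, n1, hκ, hE, b1, u1⟩ :=
    ca B o tr (th.mono (by omega)) Y D p0 hY hD hp0 hm
  rw [← hb] at hκ
  have hκ' : κ ≤ κ0 := hκ0 ▸ hκ.trans (Nat.mul_le_mul_left _ (by omega))
  have v1 := φ1.vol_le
  have a1 : Y.area ≤ Y1.area := hT.move (φ1.move o g1) (x0' := φ1.π x0) rfl s1 (by omega)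
  obtain ⟨w0, hw0⟩ := tr (Y1.f (φ1.π p0.1))
  have hu : (φ1.push (Y.ch1 D) + E).support.card ≤ m0 + 12 * κ := by
    have h1 := (Finset.card_le_card (Finsupp.support_add (g₁ := φ1.push (Y.ch1 D))
      (g₂ := E))).trans (Finset.card_union_le _ _)
    have h2 := φ1.card_support_push (Y.ch1 D)
    have h3 := card_ch1 D
    omega
  obtain ⟨Y2, φ2, s2, g2, c2, h⟩ := sw B o R0 (th.mono (by omega)) Y1 (φ1.π p0.1) w0 (m0 + 12 * κ)
    (2 * m0 + κ) Y.area _ s1 hw0 (by omega) hu a1 u1 b1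
  have g := g1.comp g2
  have c := c1.comp c2
  have ca1 := c1.area
  rcases h with ⟨h1, h2⟩ | ⟨a2, Z, hZ, -, nZ⟩
  · have v2 := φ2.vol_le
    have := hT.move ((φ1.comp φ2).move o g) (x0' := (φ1.comp φ2).π x0) rfl s2 (by omega)
    omega
  have hZ' : Y2.bd (Y2.ch0 Z) = (φ1.comp φ2).push (Y.ch1 D) + φ2.push E := by
    rw [hZ, map_add, ← EHom.push_comp]
    rfl
  have nZ' : ∀ z ∈ Z, Y2.Near R0 ((φ1.comp φ2).π p0.1) z := fun z hz => (nZ z hz).mono (by omega)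
  have hE2 := φ2.card_support_push E
  generalize φ1.comp φ2 = φ at g c hZ' nZ'
  have ca2 := c.area
  have v2 := φ.vol_le
  have l1 := la B H ex Y Y2 φ hY s2 (by omega)
  have l2 : H * (Y.area + 12 * φ.new) ≤ H * Y2.area + H * (36 * κ0) := by
    rw [← Nat.mul_add]
    exact Nat.mul_le_mul_left _ (by omega)
  have e1 : Y2.ends (φ.π x0) Z ≤ en := by
    rw [hen]
    refine ends_le φ x0 _ _ fun x hx => ⟨p0, hp0, (c.near _ _ _ (nZ' _ hx)).mono ?_⟩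
    unfold PS.pot
    omega
  obtain ⟨k1, k2⟩ := co B Y Y2 φ D _ Z hY s2 hD.1 hZ' a2
  obtain ⟨Y3, m, x3, hK, s3, v3, a3⟩ := re B o R0 tr (th.mono (by omega)) Y2 (φ.π x0) _ Z s2
    (g.h0 o x0 hI.h0) nZ'
  have q1 : CQ * (Y2.front Z + Y2.ends (φ.π x0) Z) ≤ CQ * (48 * κ + en) :=
    Nat.mul_le_mul_left _ (by omega)
  have q2 : CQ * (48 * κ + en) ≤ CQ * (48 * κ0 + m0) := Nat.mul_le_mul_left _ (by omega)
  have a4 := hT.move ((φ.move o g).comp m) (x0' := x3) ⟨φ.π x0, rfl, hK⟩ s3 (by omega)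
  have q3 : (102 + 48 * CQ) * κ ≤ (102 + 48 * CQ) * (CK * b) := Nat.mul_le_mul_left _ hκ
  have q4 : D.card ≤ (102 + 48 * CQ) * κ + CQ * en := by
    have : (102 + 48 * CQ) * κ + CQ * en = 102 * κ + CQ * (48 * κ + en) := by ring
    omega
  have q5 : ((102 + 48 * CQ) * CK + CQ + 1) * (b + en) = (102 + 48 * CQ) * (CK * b) + CQ * en +
      ((CQ + 1) * b + ((102 + 48 * CQ) * CK + 1) * en) := by ring
  omega

end Pool.Agent.MP_df844f_gt
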