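import Pool.Agent.MP_df844f_gt.Spec

/-! Removing a small liftable set of chambers at a cost linear in its frontier and ends. -/

namespace Pool.Agent.MP_df844f_gt

open PS

namespace RemA

variable {B : Type} [MulAction W B] {o : B} {Y : PS B}

/-- Edges inside `Z`. -/
def In (Z : Finset Y.Om) (u v : Y.Om) : Prop := u ∈ Z ∧ v ∈ Z ∧ ∃ s, Y.e s u v

/-- The component of `z` in `Z`. -/
def cmp (Z : Finset Y.Om) (z : Y.Om) : Set Y.Om := {y | Relation.ReflTransGen (In Z) z y}

theorem cmp_self (Z : Finset Y.Om) (z : Y.Om) : z ∈ cmp Z z := Relation.ReflTransGen.refl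

theorem cmp_eq {Z : Finset Y.Om} {z y : Y.Om} (h : y ∈ cmp Z z) : cmp Z y = cmp Z z := by
  have hs : Relation.ReflTransGen (In Z) y z := by
    have h' : Relation.ReflTransGen (In Z) z y := h
    clear h
    induction h' with
    | refl => exact Relation.ReflTransGen.refl
    | tail _ k ih =>
      obtain ⟨a, b, s, e⟩ := k
      exact Relation.ReflTransGen.head ⟨b, a, s, Y.e_symm e⟩ ih
  ext q
  exact ⟨fun k => Relation.ReflTransGen.trans h k, fun k => Relation.ReflTransGen.trans hs k⟩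

theorem cmp_sub {Z : Finset Y.Om} {z y : Y.Om} (hz : z ∈ Z) (h : y ∈ cmp Z z) : y ∈ Z := by
  have h' : Relation.ReflTransGen (In Z) z y := h
  cases h' with
  | refl => exact hz
  | tail _ k => exact k.2.1

/-- Chambers of `Z` near the outside or carrying an end. -/
def Mark (Z : Finset Y.Om) (x0 z : Y.Om) : Prop :=
  (∃ y, y ∉ Z ∧ Y.Near 2 z y) ∨ ∃ a, Y.esrc x0 a = z

theorem card_mark (hY : Y.State) (Z : Finset Y.Om) (x0 : Y.Om) :
    {z | z ∈ Z ∧ Mark Z x0 z}.ncard ≤ 13 * Y.front Z + Y.ends x0 Z := by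
  let Fr : Set (Y.Om × S) := {p | p.1 ∈ (Z : Set Y.Om) ∧ ∃ y, y ∉ (Z : Set Y.Om) ∧ Y.e p.2 p.1 y}
  let fn : (Y.Om × S) × Option S → Y.Om := fun q => q.2.elim q.1.1 fun s => Y.sg s q.1.1
  have h : {z | z ∈ Z ∧ Mark Z x0 z} ⊆
      fn '' (Fr ×ˢ Set.univ) ∪ Y.esrc x0 '' {a | Y.esrc x0 a ∈ (Z : Set Y.Om)} := by
    rintro z ⟨hz, ⟨y, hy, hn⟩ | ⟨a, ha⟩⟩
    · left
      cases hn with
      | refl => exact absurd hz hy
      | @step _ s _ q _ e hn =>
        by_cases hq : q ∈ Z
        · cases hn with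
          | refl => exact absurd hq hy
          | @step _ s' _ q' _ e' hn =>
            cases hn with
            | refl =>
              exact ⟨((q, s'), some s), ⟨⟨hq, _, hy, e'⟩, trivial⟩, hY.sg_eq (Y.e_symm e)⟩
        · exact ⟨((z, s), none), ⟨⟨hz, q, hq, e⟩, trivial⟩, rfl⟩
    · exact Or.inr ⟨a, by show Y.esrc x0 a ∈ (Z : Set Y.Om); rw [ha]; exact hz, ha⟩
  refine (Set.ncard_le_ncard h).trans ((Set.ncard_union_le _ _).trans (Nat.add_le_add ?_ ?_))
  · refine (Set.ncard_image_le).trans ?_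
    rw [Set.ncard_prod, Set.ncard_univ, mul_comm]
    simp only [Nat.card_eq_fintype_card, Fintype.card_option, Fintype.card_fin]
    exact le_rfl
  · exact Set.ncard_image_le

theorem exists_mark (ht : Trans o) {x0 : Y.Om} (h0 : Y.H0 o x0) {Z : Finset Y.Om} {z : Y.Om}
    (hz : z ∈ Z) : ∃ y ∈ cmp Z z, Mark Z x0 y := by
  by_contra hn
  push Not at hn
  have sh : ∀ s x y, Y.e s x y → x ∈ cmp Z z → y ∈ cmp Z z := by
    intro s x y e hx
    by_cases hy : y ∈ Z
    · exact Relation.ReflTransGen.tail hx ⟨cmp_sub hz hx, hy, s, e⟩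
    · exact (hn x hx (Or.inl ⟨y, hy, (Near.single e).mono (by omega)⟩)).elim
  have nd : ∀ a, Y.src a ∉ cmp Z z := fun a k => hn _ k (Or.inr ⟨some a, rfl⟩)
  obtain ⟨w, hw⟩ := ht (Y.f z)
  have := h0.2 Prop (fun x _ => x ∈ cmp Z z)
    ⟨fun s x y _ e => propext ⟨sh s y x (Y.e_symm e), sh s x y e⟩,
      fun a _ => propext ⟨fun k => (nd _ k).elim, fun k => (nd _ k).elim⟩⟩ z w hw
  exact hn x0 (this ▸ cmp_self Z z) (Or.inr ⟨none, rfl⟩)

theorem nF_add (Z : Set Y.Om) : Y.nF Zᶜ + Y.nF Z = Y.area := by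
  unfold PS.nF PS.area
  rw [← Set.ncard_union_eq]
  · congr 1
    ext p
    simp only [Set.mem_union, Set.mem_setOf_eq, Set.mem_compl_iff]
    tauto
  · rw [Set.disjoint_left]
    rintro p ⟨a, _⟩ ⟨b, _⟩
    exact a b

end RemA

open RemA in
theorem rem (hS : HS) (qS : QS) (cl : ClosS) : RemS := by
  classical
  obtain ⟨C, hC⟩ := qS
  refine ⟨156 * C, fun B _ o R ht hT Y x0 x1 Z hY h0 hZ => ?_⟩
  obtain ⟨w1, hw1⟩ := ht (Y.f x1)
  have hp : ∀ z, ∃ w, z ∈ Z → w • o = Y.f z ∧ d w1 w ≤ R := by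
    intro z
    by_cases hz : z ∈ Z
    · obtain ⟨w, hw⟩ := (hZ z hz).lift hw1
      exact ⟨w, fun _ => hw⟩
    · exact ⟨1, fun k => absurd k hz⟩
  choose pos hpos using hp
  let J : Type := {c : Set Y.Om // ∃ z ∈ Z, c = cmp Z z}
  haveI : Fintype J := Fintype.ofFinite J
  let comp : Y.Om → Option J := fun z => if h : z ∈ Z then some ⟨cmp Z z, z, h, rfl⟩ else none
  have hc : ∀ z j, comp z = some j ↔ z ∈ Z ∧ cmp Z z = j.1 := by
    intro z j
    by_cases hz : z ∈ Z
    · simp only [comp, dif_pos hz, Option.some.injEq, hz, true_and]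
      exact Subtype.ext_iff
    · simp [comp, hz]
  have hc0 : ∀ z, comp z = none ↔ z ∉ Z := by
    intro z
    by_cases hz : z ∈ Z <;> simp [comp, hz]
  let Mf : Finset Y.Om := Z.filter (Mark Z x0)
  let F : J → Finset W := fun j => (Mf.filter fun z => comp z = some j).image pos
  have hF : ∀ z j, comp z = some j → Mark Z x0 z → pos z ∈ F j := fun z j a b =>
    Finset.mem_image.2 ⟨z, Finset.mem_filter.2
      ⟨Finset.mem_filter.2 ⟨((hc z j).1 a).1, b⟩, a⟩, rfl⟩
  have hne : ∀ j, (F j).Nonempty := by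
    rintro ⟨c, z, hz, rfl⟩
    obtain ⟨y, a, b⟩ := exists_mark ht h0 hz
    exact ⟨_, hF y _ ((hc y _).2 ⟨cmp_sub hz a, cmp_eq a⟩) b⟩
  choose Q ι hQ hv using fun j => hC (F j) (hne j)
  let D : HData o Y :=
    { J := J
      comp := comp
      pos := pos
      int := fun _ => False
      Q := Q
      F := F
      ι := ι
      pos_f := fun z j h => (hpos z ((hc z j).1 h).1).1
      e_in := by
        intro s z z' j j' e a b
        obtain ⟨a1, a2⟩ := (hc z j).1 a
        obtain ⟨b1, b2⟩ := (hc z' j').1 b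
        refine ⟨Subtype.ext ?_, ?_⟩
        · rw [← a2, ← b2]
          exact (cmp_eq (Relation.ReflTransGen.single ⟨a1, b1, s, e⟩)).symm
        · obtain ⟨p1, p2⟩ := hpos z a1
          obtain ⟨q1, q2⟩ := hpos z' b1
          refine hT _ _ (by rw [q1, Y.e_f e, mul_smul, p1]) ?_
          have t1 := d_triangle (pos z') w1 (g s * pos z)
          have t2 := d_triangle w1 (pos z) (g s * pos z)
          rw [d_g_mul] at t2
          rw [d_comm (pos z') w1] at t1
          omega
      int_rev := fun _ h => h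
      int_in := fun _ h => h.elim
      conn := by
        rintro ⟨c, z0, hz, rfl⟩
        refine ⟨z0, (hc _ _).2 ⟨hz, rfl⟩, fun z h => ?_⟩
        have h1 : Relation.ReflTransGen (In Z) z0 z := by
          have := cmp_self Z z
          rwa [((hc _ _).1 h).2] at this
        clear h
        induction h1 with
        | refl => exact Relation.ReflTransGen.refl
        | tail a k ih =>
          exact ih.tail ⟨(hc _ _).2 ⟨k.1, cmp_eq a⟩, (hc _ _).2 ⟨k.2.1, cmp_eq (a.tail k)⟩,
            Or.inl k.2.2⟩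
      gad := hQ
      kept_near := fun z y j a b c => hF z j a (Or.inl ⟨y, (hc0 y).1 b, c⟩)
      kept_src := fun a j _ h => hF _ j h (Or.inr ⟨some a, rfl⟩) }
  obtain ⟨Y1, m, ν, hK, v1, a1, -⟩ := hS B o Y D
  obtain ⟨Y2, φ, s2, g2, c2, n2⟩ := cl B Y1
  have hs : ∑ j, (Q j).vol ≤ C * (13 * Y.front Z + Y.ends x0 Z) := by
    have e1 : ∑ j, (F j).card ≤ Mf.card := by
      refine (Finset.sum_le_sum fun j _ => Finset.card_image_le).trans ?_
      rw [← Finset.card_biUnion]
      · exact Finset.card_le_card (Finset.biUnion_subset.2 fun j _ => Finset.filter_subset _ _)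
      · intro j _ j' _ hj
        refine Finset.disjoint_left.2 fun z a b => hj ?_
        exact Option.some.inj ((Finset.mem_filter.1 a).2.symm.trans (Finset.mem_filter.1 b).2)
    have e2 : Mf.card ≤ 13 * Y.front Z + Y.ends x0 Z := by
      refine le_trans (le_of_eq ?_) (card_mark hY Z x0)
      rw [← Set.ncard_coe_finset]
      congr 1
      ext z
      simp [Mf]
    refine (Finset.sum_le_sum fun j _ => hv j).trans ?_
    rw [← Finset.mul_sum]
    exact Nat.mul_le_mul_left _ (e1.trans e2)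
  have hset : {x | D.comp x = none} = (Z : Set Y.Om)ᶜ := by
    ext x; exact hc0 x
  have hvol : {x | D.comp x = none}.ncard ≤ Y.vol := by
    unfold PS.vol
    rw [← Set.ncard_univ]
    exact Set.ncard_le_ncard (Set.subset_univ _)
  rw [hset] at a1
  have v1' : Y1.vol ≤ Y.vol + ∑ j, (Q j).vol := v1.trans (Nat.add_le_add_right hvol _)
  have a1' : Y1.area ≤ Y.nF (Z : Set Y.Om)ᶜ + 12 * ∑ j, (Q j).vol := a1
  have e3 := nF_add (Z : Set Y.Om)
  have e4 := φ.vol_le
  have e5 := c2.area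
  have e6 : 12 * (C * (13 * Y.front Z + Y.ends x0 Z)) ≤
      156 * C * (Y.front Z + Y.ends x0 Z) := by nlinarith [Nat.zero_le (C * Y.ends x0 Z)]
  refine ⟨Y2, m.comp (φ.move o g2), φ.π (ν x0),
    ⟨ν x0, hK x0 fun j h => hF x0 j h (Or.inr ⟨none, rfl⟩), rfl⟩, s2, by omega, by omega⟩

end Pool.Agent.MP_df844f_gt
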