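import Pool.Agent.MP_df844f_gt.Spec

/-! Row STEP: one step of the sweep. -/

namespace Pool.Agent.MP_df844f_gt

open PS

namespace StepA

variable {B : Type} [MulAction W B] {Y : PS B}

theorem f2_one {a : F2} (h : a ≠ 0) : a = 1 := by revert a; decide

theorem up_up {w0 c : W} {a b : S} (ha : ¬ Desc w0 c a) (hb : ¬ Desc w0 c b) (h : adj a b) :
    d w0 (g b * (g a * c)) = d w0 c + 2 := by
  have h1 : ¬ Desc w0 (g a * c) b := by
    rw [desc_iff, wall_adj (adj_symm h), mem_Sep_step]
    rw [desc_iff] at hb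
    have : wall b c ≠ wall a c := fun k => adj_ne h (wall_inj k).symm
    tauto
  rw [d_eq_of_not_desc h1, d_eq_of_not_desc ha]

theorem d_step (w0 w : W) (v : S) : d w0 w ≤ d w0 (g v * w) + 1 ∧ d w0 (g v * w) ≤ d w0 w + 1 := by
  by_cases h : Desc w0 w v
  · have := h.d_eq; omega
  · have := d_eq_of_not_desc h; omega

theorem sg_cases (s : S) (x : Y.Om) : Y.sg s x = x ∨ Y.e s x (Y.sg s x) := by
  by_cases h : Y.Free x s
  · exact Or.inl (sg_of_free h)
  · exact Or.inr (e_sg h)

/-- Rank two orbits in terms of edges. -/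
theorem orb (hY : Y.State) {a b : S} (h : adj a b) {x y : Y.Om}
    (k : Y.cell x {a, b} = Y.cell y {a, b}) :
    y = x ∨ Y.e a x y ∨ Y.e b x y ∨ (∃ q, Y.e a x q ∧ Y.e b q y) ∨ ∃ q, Y.e b x q ∧ Y.e a q y := by
  rcases hY.orb2 h k with rfl | rfl | rfl | rfl | rfl
  · exact Or.inl rfl
  · rcases sg_cases a x with q | q
    · exact Or.inl q
    · exact Or.inr (Or.inl q)
  · rcases sg_cases b x with q | q
    · exact Or.inl q
    · exact Or.inr (Or.inr (Or.inl q))
  · rcases sg_cases a x with q | q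
    · rw [q]
      rcases sg_cases b x with q' | q'
      · exact Or.inl q'
      · exact Or.inr (Or.inr (Or.inl q'))
    · rcases sg_cases b (Y.sg a x) with q' | q'
      · rw [q']; exact Or.inr (Or.inl q)
      · exact Or.inr (Or.inr (Or.inr (Or.inl ⟨_, q, q'⟩)))
  · rcases sg_cases b x with q | q
    · rw [q]
      rcases sg_cases a x with q' | q'
      · exact Or.inl q'
      · exact Or.inr (Or.inl q')
    · rcases sg_cases a (Y.sg b x) with q' | q'
      · rw [q']; exact Or.inr (Or.inr (Or.inl q))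
      · exact Or.inr (Or.inr (Or.inr (Or.inr ⟨_, q, q'⟩)))

theorem bd_apply (u : Y.Chain) (e : Y.Cell) :
    Y.bd u e = ∑ c ∈ u.support, Y.bd (Finsupp.single c (u c)) e := by
  conv_lhs => rw [← Finsupp.sum_single u]
  rw [Finsupp.sum, map_sum, Finsupp.finsetSum_apply]

/-- A face of a cycle has a second face of the cycle along each of its edges. -/
theorem parity {u : Y.Chain} (hu : ∀ c ∈ u.support, ∃ x s, c = Y.cell x {s}) (h0 : Y.bd u = 0)
    {x : Y.Om} {a b : S} (hx : Y.cell x {a} ∈ u.support) (h : adj a b) :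
    ∃ y v, (v = a ∨ v = b) ∧ Y.cell y {v} ∈ u.support ∧ Y.cell y {v} ≠ Y.cell x {a} ∧
      Y.cell x {a, b} = Y.cell y {a, b} := by
  by_contra hc
  have h1 := bd_apply u (Y.cell x {a, b})
  rw [h0, Finset.sum_eq_single_of_mem _ hx, bd_single, Finsupp.finsetSum_apply,
    Finset.sum_eq_single_of_mem b (by simpa using h), Finset.pair_comm b a,
    Finsupp.single_eq_same] at h1
  · exact Finsupp.mem_support_iff.1 hx h1.symm
  · intro t ht htb
    refine Finsupp.single_eq_of_ne fun k => htb ?_
    have e := (cell_eq_iff.1 k).1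
    have h2 : t ∈ ({a, b} : Finset S) := e ▸ Finset.mem_insert_self t {a}
    have h3 : adj a t := by simpa using ht
    rcases Finset.mem_insert.1 h2 with q | q
    · exact absurd q.symm (adj_ne h3)
    · exact Finset.mem_singleton.1 q
  · intro c hcs hne
    obtain ⟨y, v, rfl⟩ := hu c hcs
    rw [bd_single, Finsupp.finsetSum_apply]
    refine Finset.sum_eq_zero fun t _ => Finsupp.single_eq_of_ne fun k => hc ⟨y, v, ?_, hcs, hne, ?_⟩
    · have e := (cell_eq_iff.1 k).1
      have h2 : v ∈ ({a, b} : Finset S) :=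
        e ▸ Finset.mem_insert_of_mem (Finset.mem_singleton_self v)
      simpa using h2
    · have e := (cell_eq_iff.1 k).1
      rw [← e] at k
      exact k

/-- Removing a chamber all of whose sides outside `J` lie in the support. -/
theorem count {u : Y.Chain} (z : Y.Om) (J : Finset S) (hJ : J.card ≤ 3)
    (h : ∀ b ∉ J, Y.cell z {b} ∈ u.support) :
    (u + Y.bd (Finsupp.single (Y.cell z ∅) 1)).support.card + 6 ≤ u.support.card := by
  have inj : Function.Injective fun s : S => Y.cell z {s} := fun s t k =>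
    Finset.singleton_injective (cell_eq_iff.1 k).1
  have hb : Y.bd (Finsupp.single (Y.cell z ∅) 1) = ∑ s : S, Finsupp.single (Y.cell z {s}) 1 := by
    rw [bd_single]; simp
  have hs : (u + Y.bd (Finsupp.single (Y.cell z ∅) 1)).support ⊆
      (u.support \ Jᶜ.image fun s => Y.cell z {s}) ∪ J.image fun s => Y.cell z {s} := by
    intro e he
    rw [Finsupp.mem_support_iff, Finsupp.add_apply, hb, Finsupp.finsetSum_apply] at he
    by_cases k : ∃ s, e = Y.cell z {s}
    · obtain ⟨s, rfl⟩ := k
      by_cases hsJ : s ∈ J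
      · exact Finset.mem_union_right _ (Finset.mem_image_of_mem _ hsJ)
      · exfalso
        apply he
        rw [Finset.sum_eq_single_of_mem s (Finset.mem_univ s), Finsupp.single_eq_same,
          f2_one (Finsupp.mem_support_iff.1 (h s hsJ))]
        · exact F2_add_self 1
        · intro t _ hts
          exact Finsupp.single_eq_of_ne fun q => hts (inj q).symm
    · rw [Finset.sum_eq_zero fun s _ => Finsupp.single_eq_of_ne fun q => k ⟨s, q⟩, add_zero] at he
      refine Finset.mem_union_left _ (Finset.mem_sdiff.2 ⟨Finsupp.mem_support_iff.2 he, fun q => ?_⟩)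
      obtain ⟨s, _, rfl⟩ := Finset.mem_image.1 q
      exact k ⟨s, rfl⟩
  have h1 := (Finset.card_le_card hs).trans (Finset.card_union_le _ _)
  have h2 : (Jᶜ.image fun s => Y.cell z {s}) ⊆ u.support := by
    intro e he
    obtain ⟨s, hs', rfl⟩ := Finset.mem_image.1 he
    exact h s (Finset.mem_compl.1 hs')
  have h3 := Finset.card_sdiff_add_card_eq_card h2
  rw [Finset.card_image_of_injective _ inj] at h1 h3
  rw [Finset.card_compl, Fintype.card_fin] at h3
  omega

theorem crossing {r : S → S → Prop} {s t : S} (h : Relation.ReflTransGen r s t) (T : Finset S)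
    (hs : s ∈ T) (ht : t ∉ T) : ∃ a b, a ∈ T ∧ b ∉ T ∧ r a b := by
  induction h with
  | refl => exact absurd hs ht
  | @tail a b _ k ih =>
    by_cases q : a ∈ T
    · exact ⟨a, b, q, ht, k⟩
    · exact ih q

/-- A consistent choice of chambers along a spanning tree of the letters outside `J`. -/
theorem grow (J : Finset S) (Up : S → Y.Om → Prop) (s1 : S) (x1 : Y.Om) (h1 : Up s1 x1)
    (hs1 : s1 ∉ J)
    (conn : ∀ t ∉ J, Relation.ReflTransGen (fun a b => a ∉ J ∧ b ∉ J ∧ adj a b) s1 t)
    (link : ∀ a b ya, a ∉ J → b ∉ J → adj a b → Up a ya →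
      ∃ yb q, Up b yb ∧ Y.e b ya q ∧ Y.e a yb q) :
    ∃ y : S → Y.Om, (∀ t ∉ J, Up t (y t)) ∧
      (∀ t ∉ J, ∀ u ∉ J, Relation.ReflTransGen
        (fun a c => a ∉ J ∧ c ∉ J ∧ adj a c ∧ ∃ q, Y.e c (y a) q ∧ Y.e a (y c) q) t u) ∧
      ∀ t ∉ J, ∀ u ∉ J, Y.Near 24 (y t) (y u) := by
  have key : ∀ k : ℕ, ∃ (T : Finset S) (y : S → Y.Om), s1 ∈ T ∧ (∀ t ∈ T, t ∉ J ∧ Up t (y t)) ∧
      (∀ t ∈ T, Relation.ReflTransGen
        (fun a c => a ∈ T ∧ c ∈ T ∧ adj a c ∧ ∃ q, Y.e c (y a) q ∧ Y.e a (y c) q) s1 t) ∧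
      (∀ t ∈ T, ∀ u ∈ T, Y.Near (2 * T.card) (y t) (y u)) ∧ (k ≤ T.card ∨ ∀ t ∉ J, t ∈ T) := by
    intro k
    induction k with
    | zero =>
      refine ⟨{s1}, fun _ => x1, Finset.mem_singleton_self _, fun t ht => ?_, fun t ht => ?_,
        fun _ _ _ _ => Near.refl _ _, Or.inl (Nat.zero_le _)⟩
      · rw [Finset.mem_singleton.1 ht]; exact ⟨hs1, h1⟩
      · rw [Finset.mem_singleton.1 ht]
    | succ k ih =>
      obtain ⟨T, y, a1, a2, a3, a4, a5⟩ := ih
      by_cases hd : ∀ t ∉ J, t ∈ T
      · exact ⟨T, y, a1, a2, a3, a4, Or.inr hd⟩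
      · have hk : k ≤ T.card := a5.resolve_right hd
        push Not at hd
        obtain ⟨t0, ht0, ht1⟩ := hd
        obtain ⟨a, b, ha, hb, haJ, hbJ, hab⟩ := crossing (conn t0 ht0) T a1 ht1
        obtain ⟨yb, q, b1, b2, b3⟩ := link a b (y a) haJ hbJ hab (a2 a ha).2
        have hy : ∀ t ∈ T, Function.update y b yb t = y t := fun t ht =>
          Function.update_of_ne (fun e : t = b => hb (e ▸ ht)) _ _
        have hyb : Function.update y b yb b = yb := Function.update_self _ _ _
        have hn : Y.Near 2 (y a) yb := (Near.single b2).trans (Near.single (Y.e_symm b3))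
        have old : ∀ t ∈ T, Relation.ReflTransGen
            (fun a' c => a' ∈ insert b T ∧ c ∈ insert b T ∧ adj a' c ∧
              ∃ q, Y.e c (Function.update y b yb a') q ∧ Y.e a' (Function.update y b yb c) q)
            s1 t := fun t ht =>
          Relation.ReflTransGen.mono (fun a' c ⟨e1, e2, e3, e4⟩ =>
            ⟨Finset.mem_insert_of_mem e1, Finset.mem_insert_of_mem e2, e3, by
              rw [hy a' e1, hy c e2]; exact e4⟩) _ _ (a3 t ht)
        refine ⟨insert b T, Function.update y b yb, Finset.mem_insert_of_mem a1, fun t ht => ?_,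
          fun t ht => ?_, fun t ht u hu => ?_, Or.inl ?_⟩
        · rcases Finset.mem_insert.1 ht with rfl | ht
          · rw [hyb]; exact ⟨hbJ, b1⟩
          · rw [hy t ht]; exact a2 t ht
        · rcases Finset.mem_insert.1 ht with rfl | ht
          · refine (old a ha).tail ⟨Finset.mem_insert_of_mem ha, Finset.mem_insert_self _ _, hab,
              q, ?_, ?_⟩
            · rw [hy a ha]; exact b2
            · rw [hyb]; exact b3
          · exact old t ht
        · rw [Finset.card_insert_of_notMem hb]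
          rcases Finset.mem_insert.1 ht with e | ht' <;>
            rcases Finset.mem_insert.1 hu with e' | hu'
          · rw [e, e']; exact Near.refl _ _
          · rw [e, hyb, hy u hu']
            exact (hn.symm.trans (a4 a ha u hu')).mono (by omega)
          · rw [e', hyb, hy t ht']
            exact ((a4 t ht' a ha).trans hn).mono (by omega)
          · rw [hy t ht', hy u hu']
            exact (a4 t ht' u hu').mono (by omega)
        · rw [Finset.card_insert_of_notMem hb]; omega
  obtain ⟨T, y, a1, a2, a3, a4, a5⟩ := key 13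
  have hT : T.card ≤ 12 := by simpa using Finset.card_le_univ T
  have hall : ∀ t ∉ J, t ∈ T := a5.resolve_left (by omega)
  have hr : ∀ t ∉ J, Relation.ReflTransGen
      (fun a c => a ∉ J ∧ c ∉ J ∧ adj a c ∧ ∃ q, Y.e c (y a) q ∧ Y.e a (y c) q) s1 t :=
    fun t ht => Relation.ReflTransGen.mono (fun a c ⟨e1, e2, e3, e4⟩ =>
      ⟨(a2 a e1).1, (a2 c e2).1, e3, e4⟩) _ _ (a3 t (hall t ht))
  have hsym : ∀ {t u}, Relation.ReflTransGen
      (fun a c => a ∉ J ∧ c ∉ J ∧ adj a c ∧ ∃ q, Y.e c (y a) q ∧ Y.e a (y c) q) t u →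
      Relation.ReflTransGen
      (fun a c => a ∉ J ∧ c ∉ J ∧ adj a c ∧ ∃ q, Y.e c (y a) q ∧ Y.e a (y c) q) u t := by
    intro t u h
    induction h with
    | refl => exact Relation.ReflTransGen.refl
    | tail _ k ih =>
      obtain ⟨e1, e2, e3, q, e4, e5⟩ := k
      exact Relation.ReflTransGen.head ⟨e2, e1, adj_symm e3, q, e5, e4⟩ ih
  exact ⟨y, fun t ht => (a2 t (hall t ht)).2, fun t ht u hu => (hsym (hr t ht)).trans (hr u hu),
    fun t ht u hu => (a4 t (hall t ht) u (hall u hu)).mono (by omega)⟩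

end StepA

open StepA in
theorem step (hF : FactS) : StepS := by
  intro B _ o n hT Y x0 w0 u hY hw hu h0 hne
  classical
  have lift_e : ∀ {s x y} {w : W}, Y.e s x y → w • o = Y.f x → (g s * w) • o = Y.f y :=
    fun h k => by rw [mul_smul, k, Y.e_f h]
  -- lifts of chambers that carry a face of the support
  have hA : ∀ y v w, Y.cell y {v} ∈ u.support → w • o = Y.f y → d w0 w ≤ n + 9 →
      d w0 w ≤ n + 1 ∧ Y.Near (n + 1) x0 y := by
    intro y v w h1 h2 h3
    obtain ⟨x, s, e, hx⟩ := hu _ h1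
    obtain rfl : v = s := Finset.singleton_injective (cell_eq_iff.1 e).1
    have hn : Y.Near (n + 1) x0 y := by
      rcases hY.cell_one.1 e with q | q
      · rw [← q]; exact hx.mono (by omega)
      · exact hx.trans (Near.single (Y.e_symm q))
    obtain ⟨w', a1, a2⟩ := hn.lift hw
    have h4 := d_triangle w w0 w'
    rw [d_comm w w0] at h4
    rw [hT w w' (h2.trans a1.symm) (by omega)]
    exact ⟨a2, hn⟩
  -- a face with maximal lower corner
  let H : Set ℕ := {h | ∃ y v w, Y.cell y {v} ∈ u.support ∧ w • o = Y.f y ∧ d w0 w ≤ n + 1 ∧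
    h = min (d w0 w) (d w0 (g v * w))}
  have hH : H.Nonempty := by
    obtain ⟨e, he⟩ := Finsupp.support_nonempty_iff.2 hne
    obtain ⟨x, s, rfl, hx⟩ := hu e he
    obtain ⟨w, a1, a2⟩ := hx.lift hw
    exact ⟨_, x, s, w, he, a1, by omega, rfl⟩
  have hB : BddAbove H := ⟨n + 1, by
    rintro _ ⟨y, v, w, _, _, a3, rfl⟩
    exact (min_le_left _ _).trans a3⟩
  obtain ⟨x1, s1, w1, b1, b2, b3, b4⟩ := Nat.sSup_mem hH hB
  obtain ⟨c, c1, c2, c3⟩ : ∃ c, ¬ Desc w0 c s1 ∧ d w0 c = sSup H ∧ (w1 = c ∨ w1 = g s1 * c) := by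
    by_cases k : Desc w0 w1 s1
    · have := k.d_eq
      refine ⟨g s1 * w1, fun q => ?_, by omega, Or.inr (g_mul_g_mul _ _).symm⟩
      have h2 := q.d_eq
      rw [g_mul_g_mul] at h2
      omega
    · have := d_eq_of_not_desc k
      exact ⟨w1, k, by omega, Or.inl rfl⟩
  have hm : d w0 c ≤ n + 1 := by omega
  have hM : ∀ y v w, Y.cell y {v} ∈ u.support → w • o = Y.f y → d w0 w ≤ d w0 c + 2 →
      d w0 w ≤ d w0 c ∨ d w0 (g v * w) ≤ d w0 c := by
    intro y v w h1 h2 h3
    have := le_csSup hB (⟨y, v, w, h1, h2, (hA y v w h1 h2 (by omega)).1, rfl⟩ :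
      min (d w0 w) (d w0 (g v * w)) ∈ H)
    omega
  let J : Finset S := Finset.univ.filter fun t => Desc w0 c t
  have hJ : ∀ t, t ∉ J ↔ ¬ Desc w0 c t := fun t => by simp [J]
  have hclq : Clq J := fun s hs t ht hst =>
    desc_adj (Finset.mem_filter.1 hs).2 (Finset.mem_filter.1 ht).2 hst
  have hu' : ∀ c ∈ u.support, ∃ x s, c = Y.cell x {s} := fun e he =>
    let ⟨x, s, k, _⟩ := hu e he; ⟨x, s, k⟩
  by_cases hc : ∃ z a, a ∉ J ∧ c • o = Y.f z ∧ Y.cell z {a} ∈ u.support
  · obtain ⟨z, a0, z1, z2, z3⟩ := hc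
    refine Or.inl ⟨z, (hA z a0 c z3 z2 (by omega)).2, count z J (hF.clq J hclq) fun b hb => ?_⟩
    have hr := hF.conn J hclq a0 z1 b hb
    clear hb
    induction hr with
    | refl => exact z3
    | @tail a b _ k ih =>
      obtain ⟨ha, hb, hab⟩ := k
      have da := d_eq_of_not_desc ((hJ a).1 ha)
      have db := d_eq_of_not_desc ((hJ b).1 hb)
      have dab := up_up ((hJ a).1 ha) ((hJ b).1 hb) hab
      have dba := up_up ((hJ b).1 hb) ((hJ a).1 ha) (adj_symm hab)
      obtain ⟨y, v, p1, p2, p3, p4⟩ := parity hu' h0 ih hab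
      rcases orb hY hab p4 with q | q | q | ⟨q, q1, q2⟩ | ⟨q, q1, q2⟩
      · subst q
        rcases p1 with rfl | rfl
        · exact absurd rfl p3
        · exact p2
      · have := hM y v _ p2 (lift_e q z2) (by omega)
        rcases p1 with rfl | rfl
        · exact absurd (cell_e (Finset.mem_singleton_self _) q).symm p3
        · omega
      · have := hM y v _ p2 (lift_e q z2) (by omega)
        rcases p1 with rfl | rfl
        · omega
        · rw [cell_e (Finset.mem_singleton_self _) q]; exact p2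
      · have := hM y v _ p2 (lift_e q2 (lift_e q1 z2)) (by omega)
        have := (d_step w0 (g b * (g a * c)) v).1
        omega
      · have := hM y v _ p2 (lift_e q2 (lift_e q1 z2)) (by omega)
        have := (d_step w0 (g a * (g b * c)) v).1
        omega
  · right
    have hfree : ∀ t y, t ∉ J → (g t * c) • o = Y.f y → Y.cell y {t} ∈ u.support → Y.Free y t := by
      rintro t y h1 h2 h3 ⟨z, hz⟩
      refine hc ⟨z, t, h1, ?_, ?_⟩
      · have := lift_e hz h2
        rwa [g_mul_g_mul] at this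
      · rw [← cell_e (Finset.mem_singleton_self _) hz]; exact h3
    have hs1 : s1 ∉ J := (hJ s1).2 c1
    have hx1 : (g s1 * c) • o = Y.f x1 := by
      rcases c3 with q | q
      · exact absurd ⟨x1, s1, hs1, q ▸ b2, b1⟩ hc
      · exact q ▸ b2
    obtain ⟨y, y1, y2, y3⟩ := grow J
      (fun t y => (g t * c) • o = Y.f y ∧ Y.cell y {t} ∈ u.support) s1 x1 ⟨hx1, b1⟩ hs1
      (hF.conn J hclq s1 hs1) (by
        rintro a b ya ha hb hab ⟨l1, l2⟩
        have da := d_eq_of_not_desc ((hJ a).1 ha)
        have db := d_eq_of_not_desc ((hJ b).1 hb)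
        have dab := up_up ((hJ a).1 ha) ((hJ b).1 hb) hab
        have dba := up_up ((hJ b).1 hb) ((hJ a).1 ha) (adj_symm hab)
        have fa := hfree a ya ha l1 l2
        obtain ⟨y, v, p1, p2, p3, p4⟩ := parity hu' h0 l2 hab
        rcases orb hY hab p4 with q | q | q | ⟨q, q1, q2⟩ | ⟨q, q1, q2⟩
        · subst q
          have := hM y v _ p2 l1 (by omega)
          rcases p1 with rfl | rfl
          · exact absurd rfl p3
          · omega
        · exact absurd ⟨_, q⟩ fa
        · have := hM y v _ p2 (lift_e q l1) (by omega)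
          have := (d_step w0 (g b * (g a * c)) v).1
          omega
        · exact absurd ⟨_, q1⟩ fa
        · have l3 : (g b * c) • o = Y.f y := by
            have := lift_e q2 (lift_e q1 l1)
            rwa [← mul_assoc (g a), g_comm hab, mul_assoc, g_mul_g_mul] at this
          have := hM y v _ p2 l3 (by omega)
          rcases p1 with rfl | rfl
          · omega
          · exact ⟨y, q, ⟨l3, p2⟩, q1, Y.e_symm q2⟩)
    exact ⟨J, y, c • o, hclq, fun t ht => by rw [← (y1 t ht).1, mul_smul],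
      fun t ht => hfree t _ ht (y1 t ht).1 (y1 t ht).2, y2, y3⟩

end Pool.Agent.MP_df844f_gt
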