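import Pool.Agent.MP_df844f_gt.w.All
import Pool.Agent.MP_df844f_gt.s2.Att
import Pool.Agent.MP_df844f_gt.s2.Clos
import Pool.Agent.MP_df844f_gt.s2.H
import Pool.Agent.MP_df844f_gt.s2.Vol
import Pool.Agent.MP_df844f_gt.x.Fix2
import Pool.Agent.MP_df844f_gt.s3.Step
import Pool.Agent.MP_df844f_gt.s3.Edge
import Pool.Agent.MP_df844f_gt.s3.Count
import Pool.Agent.MP_df844f_gt.s3.Rem
import Pool.Agent.MP_df844f_gt.s3.Gain
import Pool.Agent.MP_df844f_gt.s3.Bead
import Pool.Agent.MP_df844f_gt.g.Fill

/-! The statements of sections 3 and 4, free of hypotheses. -/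

namespace Pool.Agent.MP_df844f_gt.S3All

open WAll

theorem edgeA : EdgeS := edgeS
theorem bdA : BdS := bdS edgeS
theorem sweep0A : Sweep0S := sweep0 (step factA)
theorem capA : Cap2S :=
  capS (fillYS (fill1S factA (liftS factA ballA hullA (wedge2 h1A) clos) fillA))
theorem gainA : GainS :=
  gain capA (sweep2 sweep0A (att factA) clos) count (rem hS qA clos) lamS
theorem beadA : BeadS := bead sweep0A (att factA) clos edgeA bdA

end Pool.Agent.MP_df844f_gt.S3All
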