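import Pool.Agent.MP_df844f_gt.Spec2

/-! Capping off the boundary of a small connected set of free sides. -/

namespace Pool.Agent.MP_df844f_gt

open PS

namespace CapA

/-- A generator or the identity. -/
def pw : Bool → S → W
  | true, s => g s
  | false, _ => 1

theorem len_pw (a : Bool) (s : S) : len (pw a s) ≤ 1 := by
  cases a
  · exact len_one.le.trans (Nat.zero_le _)
  · exact (len_g s).le

theorem g_pw (a : Bool) (s : S) : g s * pw a s = pw (!a) s := by
  cases a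
  · exact mul_one _
  · exact g_mul_self s

theorem g_pw_comm {s t : S} (h : adj s t) (a : Bool) : g s * pw a t = pw a t * g s := by
  cases a
  · exact (mul_one _).trans (one_mul _).symm
  · exact g_comm h

/-- Words of length at most three. -/
noncomputable def Γ : Finset W :=
  Finset.univ.image fun p : (Bool × S) × (Bool × S) × (Bool × S) =>
    pw p.1.1 p.1.2 * (pw p.2.1.1 p.2.1.2 * pw p.2.2.1 p.2.2.2)

theorem card_Γ : Γ.card ≤ 13824 := by
  refine Finset.card_image_le.trans ?_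
  simp

theorem len_Γ {γ : W} (h : γ ∈ Γ) : len γ ≤ 3 := by
  obtain ⟨p, -, rfl⟩ := Finset.mem_image.1 h
  have h1 := len_mul_le (pw p.1.1 p.1.2) (pw p.2.1.1 p.2.1.2 * pw p.2.2.1 p.2.2.2)
  have h2 := len_mul_le (pw p.2.1.1 p.2.1.2) (pw p.2.2.1 p.2.2.2)
  have h3 := len_pw p.1.1 p.1.2
  have h4 := len_pw p.2.1.1 p.2.1.2
  have h5 := len_pw p.2.2.1 p.2.2.2
  omega

variable {B B' : Type} [MulAction W B] [MulAction W B'] {Y : PS B}

theorem orbit {s t u : S} (h1 : adj s t) (h2 : adj s u) (h3 : adj t u) {x y : Y.Om}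
    (h : Y.cell x (insert u {s, t}) = Y.cell y (insert u {s, t})) :
    ∃ γ ∈ Γ, Y.f y = γ • Y.f x := by
  have key : ∃ a b c, Y.f y = (pw a u * (pw b s * pw c t)) • Y.f x := by
    have k := (cell_eq_iff.1 h).2
    clear h
    induction k with
    | refl => exact ⟨false, false, false, by simp [pw]⟩
    | tail _ k ih =>
      obtain ⟨a, b, c, ih⟩ := ih
      obtain ⟨v, hv, k⟩ := k
      rw [Y.e_f k, ih, smul_smul]
      simp only [Finset.mem_insert, Finset.mem_singleton] at hv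
      rcases hv with rfl | rfl | rfl
      · exact ⟨!a, b, c, by rw [← mul_assoc, g_pw]⟩
      · exact ⟨a, !b, c, by
          rw [← mul_assoc, g_pw_comm h2, mul_assoc, ← mul_assoc (g v), g_pw]⟩
      · exact ⟨a, b, !c, by
          rw [← mul_assoc, g_pw_comm h3, mul_assoc, ← mul_assoc (g v), g_pw_comm (adj_symm h1),
            mul_assoc, g_pw]⟩
  obtain ⟨a, b, c, k⟩ := key
  exact ⟨_, Finset.mem_image.2 ⟨((a, u), (b, s), (c, t)), Finset.mem_univ _, rfl⟩, k⟩

/-- The walls that touch a finite set of chambers. -/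
noncomputable def walls (T : Finset W) : Finset W :=
  (T ×ˢ (Finset.univ : Finset S)).image fun p => wall p.2 p.1

theorem sep_step {T : Finset W} {b x : W} (hx : x ∈ T) (h : Sep b x ⊆ walls T) (s : S) :
    Sep b (g s * x) ⊆ walls T := by
  intro r hr
  by_cases a : r = wall s x
  · exact Finset.mem_image.2 ⟨(x, s), Finset.mem_product.2 ⟨hx, Finset.mem_univ _⟩, a.symm⟩
  · rw [mem_Sep_step] at hr
    exact h (by tauto)

theorem card_sepW {T F : Finset W} {b : W} (h : ∀ a ∈ F, Sep b a ⊆ walls T) :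
    (sepW F).card ≤ 12 * T.card := by
  have h1 : sepW F ⊆ walls T := by
    intro r hr
    obtain ⟨a, ha, hr⟩ := Finset.mem_biUnion.1 hr
    obtain ⟨a', ha', hr⟩ := Finset.mem_biUnion.1 hr
    by_cases k : r ∈ Sep b a
    · exact h a ha k
    · refine h a' ha' ?_
      rw [mem_Sep] at *
      tauto
  refine (Finset.card_le_card h1).trans (Finset.card_image_le.trans ?_)
  simp [mul_comm]

theorem near_cvx {K : Finset W} (hK : Cvx (K : Set W)) (a b : (cvxPS K).Om) :
    (cvxPS K).Near K.card a b := by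
  have key : ∀ (n : ℕ) (a : K), d b.1 a.1 = n →
      Relation.ReflTransGen (fun x y : K => ∃ s, (cvxPS K).e s x y) a b := by
    intro n
    induction n with
    | zero =>
      intro a h
      rw [Subtype.ext (d_eq_zero.1 h).symm (a2 := b)]
    | succ n ih =>
      intro a h
      obtain ⟨s, hs⟩ := exists_desc (b := b.1) (x := a.1) (fun k => by
        rw [k, d_self] at h; omega)
      have h1 := hs.d_eq
      have h2 := ih ⟨g s * a.1, hK _ b.2 _ a.2 _ hs.btw⟩ (by
        show d b.1 (g s * a.1) = n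
        omega)
      refine Relation.ReflTransGen.head ?_ h2
      exact ⟨s, rfl⟩
  have h1 := rn_of_reflTransGen (Finset.univ : Finset K) (fun _ _ _ => Finset.mem_univ _)
    (key _ a rfl)
  have h2 := near_of_rn (Y := cvxPS K) (k := 1) (fun _ _ h => by
    obtain ⟨s, h⟩ := h
    exact Near.single h) h1
  simpa using h2

/-- Transport of chains from a set of chambers along a map defined on that set. -/
theorem piece (Q : PS B') (C : Set Y.Om) (pk : Y.Om → Q.Om)
    (hE : ∀ s x y, x ∈ C → y ∈ C → Y.e s x y → Q.e s (pk x) (pk y)) :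
    ∃ L : Y.Chain →ₗ[F2] Q.Chain, ∀ x J, (∀ y, Y.cell y J = Y.cell x J → (y ∈ C ↔ x ∈ C)) →
      ∀ a, (x ∈ C → L (Finsupp.single (Y.cell x J) a) = Finsupp.single (Q.cell (pk x) J) a) ∧
        (x ∉ C → L (Finsupp.single (Y.cell x J) a) = 0) := by
  classical
  refine ⟨Finsupp.linearCombination F2 fun c =>
    if h : ∃ q : Y.Om × Finset S, q.1 ∈ C ∧ c = Y.cell q.1 q.2 then
      Finsupp.single (Q.cell (pk h.choose.1) h.choose.2) 1 else 0, fun x J hx a => ⟨?_, ?_⟩⟩
  · intro hC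
    have h : ∃ q : Y.Om × Finset S, q.1 ∈ C ∧ Y.cell x J = Y.cell q.1 q.2 := ⟨(x, J), hC, rfl⟩
    rw [Finsupp.linearCombination_single, dif_pos h, Finsupp.smul_single, smul_eq_mul, mul_one]
    obtain ⟨h1, h2⟩ := cell_eq_iff.1 h.choose_spec.2
    rw [← h1]
    have key : ∀ y, Relation.ReflTransGen (Y.JE J) x y → Q.cell (pk y) J = Q.cell (pk x) J := by
      intro y k
      induction k with
      | refl => rfl
      | @tail y z k1 k2 ih =>
        have a1 : Y.cell y J = Y.cell x J := (cell_eq_iff.2 ⟨rfl, k1⟩).symm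
        have a2 : Y.cell z J = Y.cell x J := (cell_eq_iff.2 ⟨rfl, k1.tail k2⟩).symm
        obtain ⟨s, hs, k2⟩ := k2
        exact (cell_e hs (hE s y z ((hx y a1).2 hC) ((hx z a2).2 hC) k2)).symm.trans ih
    rw [key _ h2]
  · intro hC
    rw [Finsupp.linearCombination_single, dif_neg, smul_zero]
    rintro ⟨q, h1, h2⟩
    have h3 := (cell_eq_iff.1 h2).1
    rw [← h3] at h2
    exact hC ((hx _ h2.symm).1 h1)

theorem ext_supp {M : Type} [AddCommGroup M] [Module F2 M] (β : Y.Chain)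
    (A A' : Y.Chain →ₗ[F2] M)
    (h : ∀ c ∈ β.support, ∀ a, A (Finsupp.single c a) = A' (Finsupp.single c a)) :
    A β = A' β := by
  rw [← β.sum_single, map_finsuppSum, map_finsuppSum]
  exact Finsupp.sum_congr fun c hc => h c hc _

theorem supp_sum {Q : PS B'} {ι : Type} (T : Finset ι) (u : ι → Q.Chain) {c : Q.Cell}
    (h : c ∈ (∑ i ∈ T, u i).support) : ∃ i ∈ T, c ∈ (u i).support := by
  by_contra k
  push Not at k
  refine Finsupp.mem_support_iff.1 h ?_
  rw [Finsupp.finsetSum_apply]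
  exact Finset.sum_eq_zero fun i hi => Finsupp.notMem_support_iff.1 (k i hi)

theorem supp_lin {Q : PS B'} (β : Y.Chain) (A : Y.Chain →ₗ[F2] Q.Chain) {c : Q.Cell}
    (h : c ∈ (A β).support) : ∃ c' ∈ β.support, ∃ a, c ∈ (A (Finsupp.single c' a)).support := by
  rw [← β.sum_single, map_finsuppSum] at h
  obtain ⟨c', h1, h2⟩ := supp_sum _ _ h
  exact ⟨c', h1, _, h2⟩

theorem supp_single {Q : PS B'} {c c' : Q.Cell} {a : F2}
    (h : c ∈ (Finsupp.single c' a : Q.Chain).support) : c = c' :=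
  Finset.mem_singleton.1 (Finsupp.support_single_subset h)

theorem supp_bd (D : Finset (Y.Om × S)) {c : Y.Cell} (h : c ∈ (Y.bd (Y.ch1 D)).support) :
    ∃ p ∈ D, ∃ t, adj p.2 t ∧ c = Y.cell p.1 {p.2, t} := by
  rw [bd_ch1] at h
  obtain ⟨p, hp, h⟩ := supp_sum _ _ h
  obtain ⟨t, ht, h⟩ := supp_sum _ _ h
  exact ⟨p, hp, t, (Finset.mem_filter.1 ht).2, supp_single h⟩

theorem card_face {K : Finset W} (E : (cvxPS K).Chain)
    (h : ∀ c ∈ E.support, ∃ x s, c = (cvxPS K).cell x {s}) : E.support.card ≤ 12 * K.card := by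
  have h1 : E.support ⊆ (Finset.univ : Finset (K × S)).image
      fun p => (cvxPS K).cell p.1 {p.2} := by
    intro c hc
    obtain ⟨x, s, rfl⟩ := h c hc
    exact Finset.mem_image.2 ⟨(x, s), Finset.mem_univ _, rfl⟩
  refine (Finset.card_le_card h1).trans (Finset.card_image_le.trans ?_)
  simp [mul_comm]

theorem chain_add_self {Q : PS B'} (u : Q.Chain) : u + u = 0 := by
  ext c
  exact F2_add_self _

/-- The chambers around the end points of the cells of a chain. -/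
def ZZ (β : Y.Chain) : Set Y.Om :=
  {y | ∃ x J u, Y.cell x J ∈ β.support ∧ (∀ s ∈ J, adj s u) ∧
    Y.cell y (insert u J) = Y.cell x (insert u J)}

/-- Thick paths inside `Z`. -/
def sd (Z : Set Y.Om) : Setoid Y.Om where
  r := Relation.ReflTransGen fun a b => a ∈ Z ∧ b ∈ Z ∧ ∃ s, Y.e s a b
  iseqv := ⟨fun _ => .refl, fun h => by
    induction h with
    | refl => exact .refl
    | tail _ k ih =>
      obtain ⟨h1, h2, s, h3⟩ := k
      exact .head ⟨h2, h1, s, Y.e_symm h3⟩ ih, fun h k => h.trans k⟩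

theorem sd_of_cell {Z : Set Y.Om} {x y : Y.Om} {J : Finset S}
    (hZ : ∀ z, Y.cell z J = Y.cell x J → z ∈ Z) (h : Y.cell y J = Y.cell x J) : (sd Z).r x y := by
  have k := (cell_eq_iff.1 h.symm).2
  clear h
  induction k with
  | refl => exact .refl
  | @tail y z k1 k2 ih =>
    have a1 : Y.cell y J = Y.cell x J := (cell_eq_iff.2 ⟨rfl, k1⟩).symm
    have a2 : Y.cell z J = Y.cell x J := (cell_eq_iff.2 ⟨rfl, k1.tail k2⟩).symm
    obtain ⟨s, -, k2⟩ := k2
    exact Relation.ReflTransGen.tail ih ⟨hZ y a1, hZ z a2, s, k2⟩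

/-- Representatives of the support cells and positions of the chambers around them. -/
theorem data (hF : FactS) {o : B} (hT : Trans o) {m0 : ℕ} (hTh : Thick o (4 * m0 + 7))
    (hY : Y.State) {D : Finset (Y.Om × S)} (hD : Y.BConn D) {p0 : Y.Om × S} (hp0 : p0 ∈ D)
    (hm : D.card ≤ m0) (β : Y.Chain) (hβ : β = Y.bd (Y.ch1 D)) :
    ∃ (rep : Y.Cell → Y.Om) (pos : Y.Om → W),
      (∀ c ∈ β.support, Y.Near (2 * m0) p0.1 (rep c) ∧ ∃ s t, adj s t ∧
        c = Y.cell (rep c) {s, t} ∧ ∀ y, Y.cell y {s, t} = c → y ∈ ZZ β) ∧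
      (∀ y ∈ ZZ β, pos y • o = Y.f y) ∧
      (∀ s, ∀ x ∈ ZZ β, ∀ y ∈ ZZ β, Y.e s x y → pos y = g s * pos x) ∧
      ∀ y ∈ ZZ β, ∃ c ∈ β.support, (sd (ZZ β)).r (rep c) y ∧ ∃ γ ∈ Γ, pos y = γ * pos (rep c) := by
  classical
  obtain ⟨w0, hw0⟩ := hT (Y.f p0.1)
  have h1 : ∀ c, ∃ x, c ∈ β.support → Y.Near (2 * m0) p0.1 x ∧ ∃ s t, adj s t ∧
      c = Y.cell x {s, t} ∧ ∀ y, Y.cell y {s, t} = c → y ∈ ZZ β := by
    intro c
    by_cases hc : c ∈ β.support
    · obtain ⟨p, hp, t, ht, rfl⟩ := supp_bd D (hβ ▸ hc)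
      refine ⟨p.1, fun _ => ⟨(hY.bconn_near hD hp0 hp).mono (by omega), p.2, t, ht, rfl,
        fun y hy => ?_⟩⟩
      obtain ⟨u, v, -, k⟩ := hF.two p.2 t ht
      have k1 := (k u).2 (Or.inl rfl)
      refine ⟨p.1, _, u, hc, fun s hs => ?_, cell_mono hy (Finset.subset_insert _ _)⟩
      rcases Finset.mem_insert.1 hs with rfl | hs
      · exact k1.1
      · exact Finset.mem_singleton.1 hs ▸ k1.2
    · exact ⟨p0.1, fun k => absurd k hc⟩
  choose rep hrep using h1
  have h2 : ∀ y ∈ ZZ β, ∃ c ∈ β.support, (sd (ZZ β)).r (rep c) y ∧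
      ∃ γ ∈ Γ, Y.f y = γ • Y.f (rep c) := by
    rintro y ⟨x, J, u, a1, a2, a3⟩
    obtain ⟨-, s, t, b1, b2, -⟩ := hrep _ a1
    obtain rfl := (cell_eq_iff.1 b2).1
    have b3 := a3.trans (cell_mono b2 (Finset.subset_insert u _))
    refine ⟨_, a1, sd_of_cell (fun z hz => ⟨x, _, u, a1, a2, ?_⟩) b3,
      orbit b1 (a2 s (by simp)) (a2 t (by simp)) b3.symm⟩
    exact hz.trans (cell_mono b2 (Finset.subset_insert u _)).symm
  have h3 : ∀ y, ∃ w, y ∈ ZZ β → w • o = Y.f y ∧ d w0 w ≤ 2 * m0 + 3 := by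
    intro y
    by_cases hy : y ∈ ZZ β
    · obtain ⟨c, hc, -, γ, a1, a2⟩ := h2 y hy
      obtain ⟨w, b1, b2⟩ := (hrep c hc).1.lift hw0
      refine ⟨γ * w, fun _ => ⟨by rw [mul_smul, b1, a2], ?_⟩⟩
      have := d_triangle w0 w (γ * w)
      have := d_mul_left γ w
      have := len_Γ a1
      omega
    · exact ⟨1, fun k => absurd k hy⟩
  choose pos hpos using h3
  have h4 : ∀ y ∈ ZZ β, ∀ w, w • o = Y.f y → d w0 w ≤ 2 * m0 + 4 → pos y = w := by
    intro y hy w a1 a2
    refine hTh _ _ ((hpos y hy).1.trans a1.symm) ?_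
    have := d_triangle (pos y) w0 w
    have := d_comm (pos y) w0
    have := (hpos y hy).2
    omega
  refine ⟨rep, pos, hrep, fun y hy => (hpos y hy).1, fun s x hx y hy h => ?_, fun y hy => ?_⟩
  · refine h4 y hy _ (by rw [mul_smul, (hpos x hx).1, Y.e_f h]) ?_
    have := d_triangle w0 (pos x) (g s * pos x)
    have := d_g_mul s (pos x)
    have := (hpos x hx).2
    omega
  · obtain ⟨c, hc, a0, γ, a1, a2⟩ := h2 y hy
    obtain ⟨b0, s, t, -, b3, b4⟩ := hrep c hc
    obtain ⟨w, b1, b2⟩ := b0.lift hw0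
    refine ⟨c, hc, a0, γ, a1, ?_⟩
    rw [h4 _ (b4 _ b3.symm) w b1 (by omega)]
    refine h4 y hy _ (by rw [mul_smul, b1, a2]) ?_
    have := d_triangle w0 w (γ * w)
    have := d_mul_left γ w
    have := len_Γ a1
    omega

/-- The convex set attached to one component. -/
theorem exists_K (hu : HullS) {Z : Set Y.Om} {pos : Y.Om → W}
    (hE : ∀ s, ∀ x ∈ Z, ∀ y ∈ Z, Y.e s x y → pos y = g s * pos x) {z : Y.Om} (hz : z ∈ Z)
    (T : Finset W) (hT : ∀ x ∈ Z, (sd Z).r z x → pos x ∈ T)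
    (hT' : ∀ a ∈ T, ∃ x, (sd Z).r z x ∧ pos x = a) :
    ∃ K : Finset W, Cvx (K : Set W) ∧ T ⊆ K ∧ g 0 * pos z ∈ K ∧
      K.card ≤ 1 + 13 ^ 6 * (12 * T.card) := by
  obtain ⟨K, h1, h2⟩ := hu (insert (g 0 * pos z) T) (Finset.insert_nonempty _ _)
  have h3 : insert (g 0 * pos z) T ⊆ K := by
    rw [← Finset.coe_subset, h1]
    exact subset_hull _
  have h4 : ∀ x, (sd Z).r z x → Sep (pos z) (pos x) ⊆ walls T := by
    intro x k
    induction k with
    | refl => rw [Sep_self]; exact Finset.empty_subset _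
    | tail k1 k2 ih =>
      obtain ⟨a1, a2, s, a3⟩ := k2
      rw [hE s _ a1 _ a2 a3]
      exact sep_step (hT _ a1 k1) ih s
  refine ⟨K, h1 ▸ cvx_hull _, (Finset.subset_insert _ _).trans h3,
    h3 (Finset.mem_insert_self _ _), h2.trans ?_⟩
  have h5 : (sepW (insert (g 0 * pos z) T)).card ≤ 12 * T.card := by
    refine card_sepW (b := pos z) fun a ha => ?_
    rcases Finset.mem_insert.1 ha with rfl | ha
    · exact sep_step (hT z hz .refl) (h4 z .refl) 0
    · obtain ⟨x, a1, rfl⟩ := hT' a ha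
      exact h4 x a1
  exact Nat.add_le_add_left (Nat.mul_le_mul_left _ h5) _

end CapA

open CapA in
theorem cap (hF : FactS) (we : Wedge2S) (cl : ClosS) (hu : HullS) (fi : FillS) : Cap2S := by
  classical
  refine ⟨1 + 13 ^ 6 * (12 * 13824), fun m0 => ⟨4 * m0 + 7, ?_⟩⟩
  intro B _ o hT hTh Y D p0 hY hD hp0 hm
  obtain ⟨β, hβ⟩ : ∃ β, β = Y.bd (Y.ch1 D) := ⟨_, rfl⟩
  obtain ⟨rep, pos, hrep, hpf, hpe, hZ⟩ := data hF hT hTh hY hD hp0 hm β hβ
  rw [← hβ]
  obtain ⟨Z, hZd⟩ : ∃ Z, Z = ZZ β := ⟨_, rfl⟩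
  have hZ3 : ∀ x J u y, Y.cell x J ∈ β.support → (∀ s ∈ J, adj s u) →
      Y.cell y (insert u J) = Y.cell x (insert u J) → y ∈ Z :=
    fun x J u y a1 a2 a3 => hZd ▸ ⟨x, J, u, a1, a2, a3⟩
  rw [← hZd] at hrep hpf hpe hZ
  clear hZd
  have hrZ : ∀ c ∈ β.support, rep c ∈ Z := fun c hc => by
    obtain ⟨-, s, t, -, b3, b4⟩ := hrep c hc
    exact b4 _ b3.symm
  let J := {q : Quotient (sd Z) // ∃ x ∈ Z, Quotient.mk (sd Z) x = q}
  let _ : Fintype J := Fintype.ofFinite J
  let C : J → Set Y.Om := fun j => {x | x ∈ Z ∧ Quotient.mk (sd Z) x = j.1}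
  let sup : J → Finset Y.Cell := fun j => β.support.filter fun c => rep c ∈ C j
  have hsup : ∀ j, ∀ y ∈ C j, ∃ c ∈ sup j, ∃ γ ∈ Γ, pos y = γ * pos (rep c) := by
    intro j y hy
    obtain ⟨c, hc, a1, a2⟩ := hZ y hy.1
    exact ⟨c, Finset.mem_filter.2 ⟨hc, hrZ c hc, (Quotient.sound a1).trans hy.2⟩, a2⟩
  have hne : ∀ j, ∃ c, c ∈ sup j := fun j => by
    obtain ⟨x, a1, a2⟩ := j.2
    obtain ⟨c, hc, -⟩ := hsup j x ⟨a1, a2⟩
    exact ⟨c, hc⟩
  choose c0 hc0 using hne
  have hz : ∀ j, rep (c0 j) ∈ C j := fun j => (Finset.mem_filter.1 (hc0 j)).2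
  have hK : ∀ j, ∃ K : Finset W, Cvx (K : Set W) ∧ (∀ x ∈ C j, pos x ∈ K) ∧
      g 0 * pos (rep (c0 j)) ∈ K ∧ K.card ≤ (1 + 13 ^ 6 * (12 * 13824)) * (sup j).card := by
    intro j
    have hm : ∀ x ∈ C j, pos x ∈ (Set.toFinite (C j)).toFinset.image pos := fun x hx =>
      Finset.mem_image_of_mem _ ((Set.Finite.mem_toFinset _).2 hx)
    obtain ⟨K, a1, a2, a3, a4⟩ := exists_K hu hpe (hz j).1
      ((Set.toFinite (C j)).toFinset.image pos)
      (fun x b1 b2 => hm x ⟨b1, (Quotient.sound b2).symm.trans (hz j).2⟩) (fun a ha => by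
        obtain ⟨x, b1, b2⟩ := Finset.mem_image.1 ha
        exact ⟨x, Quotient.exact ((hz j).2.trans ((Set.Finite.mem_toFinset _).1 b1).2.symm), b2⟩)
    refine ⟨K, a1, fun x hx => a2 (hm x hx), a3, a4.trans ?_⟩
    have b1 : (Set.toFinite (C j)).toFinset.image pos ⊆
        (sup j).biUnion fun c => Γ.image fun γ => γ * pos (rep c) := by
      intro a ha
      obtain ⟨x, b1, rfl⟩ := Finset.mem_image.1 ha
      obtain ⟨c, hc, γ, b2, b3⟩ := hsup j x ((Set.Finite.mem_toFinset _).1 b1)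
      exact Finset.mem_biUnion.2 ⟨c, hc, Finset.mem_image.2 ⟨γ, b2, b3.symm⟩⟩
    have b2 := (Finset.card_le_card b1).trans (Finset.card_biUnion_le_card_mul _ _ 13824
      fun c _ => Finset.card_image_le.trans card_Γ)
    have b3 : 0 < (sup j).card := Finset.card_pos.2 ⟨_, hc0 j⟩
    omega
  choose K hK1 hK2 hK3 hK4 using hK
  obtain ⟨Y1, φ, ι, g1, c1, n1, -, e1⟩ := we B o Y J (fun j => rep (c0 j))
    (fun j => pos (rep (c0 j))) K 0 (fun j => hpf _ (hz j).1) hK1 (fun j => hK2 j _ (hz j)) hK3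
  obtain ⟨Y2, ψ, s2, g2, c2, n2⟩ := cl B Y1
  let pk : ∀ j, Y.Om → (cvxPS (K j)).Om := fun j x =>
    if h : pos x ∈ K j then ⟨pos x, h⟩ else ⟨_, hK3 j⟩
  have hpk : ∀ j, ∀ x ∈ C j, (pk j x).1 = pos x := fun j x hx => by
    simp only [pk, dif_pos (hK2 j x hx)]
  have hpkE : ∀ j s x y, x ∈ C j → y ∈ C j → Y.e s x y →
      (cvxPS (K j)).e s (pk j x) (pk j y) := fun j s x y hx hy h => by
    show (pk j y).1 = g s * (pk j x).1
    rw [hpk j x hx, hpk j y hy, hpe s x hx.1 y hy.1 h]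
  let ι' : ∀ j, EHom (cvxPS (K j)) Y2 := fun j => (ι j).comp ψ.toEHom
  have hπ : ∀ j, ∀ x ∈ C j, (φ.comp ψ).π x = (ι' j).π (pk j x) := by
    intro j x hx
    have k : (sd Z).r (rep (c0 j)) x := Quotient.exact ((hz j).2.trans hx.2.symm)
    induction k with
    | refl =>
      refine s2.fold (Y2.e_symm (ψ.e_π (e1 j))) ((ι' j).e_π ?_)
      show (pk j _).1 = g 0 * (g 0 * pos (rep (c0 j)))
      rw [hpk j _ hx, g_mul_g_mul]
    | @tail x y k1 k2 ih =>
      obtain ⟨a1, -, s, a3⟩ := k2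
      have hx' : x ∈ C j := ⟨a1, (Quotient.sound k1).symm.trans (hz j).2⟩
      exact s2.fold (ih hx' ▸ (φ.comp ψ).e_π a3) ((ι' j).e_π (hpkE j s x y hx' hx a3))
  choose L hL using fun j => piece (cvxPS (K j)) (C j) (pk j) (hpkE j)
  have hgood : ∀ j x J', (∀ y, Y.cell y J' = Y.cell x J' → y ∈ Z) →
      ∀ y, Y.cell y J' = Y.cell x J' → (y ∈ C j ↔ x ∈ C j) := by
    intro j x J' h y hy
    have k : Quotient.mk (sd Z) x = Quotient.mk (sd Z) y := Quotient.sound (sd_of_cell h hy)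
    exact ⟨fun a => ⟨h x rfl, k.trans a.2⟩, fun a => ⟨h y hy, k.symm.trans a.2⟩⟩
  have hcyc : ∀ j, (cvxPS (K j)).bd (L j β) = 0 := by
    intro j
    have h0 : L j (Y.bd β) = 0 := by rw [hβ, bd_bd, map_zero]
    rw [← h0]
    refine ext_supp β ((cvxPS (K j)).bd ∘ₗ L j) (L j ∘ₗ Y.bd) fun c hc a => ?_
    obtain ⟨-, s, t, -, b3, b4⟩ := hrep c hc
    generalize rep c = x at b3
    subst b3
    have k1 := hL j x _ (hgood j x _ b4) a
    have k2 : ∀ u ∈ Finset.univ.filter (fun u => ∀ v ∈ ({s, t} : Finset S), adj v u), _ :=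
      fun u hu => hL j x _ (hgood j x _ fun y => hZ3 x _ u y hc (Finset.mem_filter.1 hu).2) a
    rw [LinearMap.comp_apply, LinearMap.comp_apply, bd_single, map_sum]
    by_cases hx : x ∈ C j
    · rw [k1.1 hx, bd_single]
      exact Finset.sum_congr rfl fun u hu => ((k2 u hu).1 hx).symm
    · rw [k1.2 hx, map_zero]
      exact (Finset.sum_eq_zero fun u hu => (k2 u hu).2 hx).symm
  have hshape : ∀ j, ∀ c ∈ (L j β).support,
      ∃ x s t, adj s t ∧ c = (cvxPS (K j)).cell x {s, t} := by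
    intro j c' hc'
    obtain ⟨c, hc, a, h⟩ := supp_lin β (L j) hc'
    obtain ⟨-, s, t, b2, b3, b4⟩ := hrep c hc
    generalize rep c = x at b3
    subst b3
    have k1 := hL j x _ (hgood j x _ b4) a
    by_cases hx : x ∈ C j
    · rw [k1.1 hx] at h
      exact ⟨_, s, t, b2, supp_single h⟩
    · rw [k1.2 hx] at h
      exact absurd h (Finset.notMem_empty _)
  choose E hE1 hE2 using fun j => fi (K j) (hK1 j) (L j β) (hshape j) (hcyc j)
  have hsum : ∑ j, (ι' j).push (L j β) = (φ.comp ψ).push β := by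
    have := ext_supp β (∑ j, (ι' j).push ∘ₗ L j) (φ.comp ψ).push fun c hc a => by
      have hx := hrZ c hc
      obtain ⟨-, s, t, -, b3, b4⟩ := hrep c hc
      generalize rep c = x at b3 hx
      subst b3
      have hj : x ∈ C ⟨_, x, hx, rfl⟩ := ⟨hx, rfl⟩
      rw [LinearMap.sum_apply, Finset.sum_eq_single (⟨_, x, hx, rfl⟩ : J), LinearMap.comp_apply,
        (hL _ x _ (hgood _ x _ b4) a).1 hj, EHom.push_single, EHom.push_single, hπ _ x hj]
      · intro j _ hne
        rw [LinearMap.comp_apply, (hL _ x _ (hgood _ x _ b4) a).2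
          fun k => hne (Subtype.ext k.2.symm), map_zero]
      · exact fun k => absurd (Finset.mem_univ _) k
    rw [← this, LinearMap.sum_apply]
    rfl
  refine ⟨Y2, φ.comp ψ, ∑ j, (K j).card, ∑ j, (ι' j).push (E j), s2, g1.comp g2, c1.comp c2,
    (φ.new_comp ψ).trans (by omega), ?_, ?_, ?_, ?_⟩
  · refine (Finset.sum_le_sum fun j _ => hK4 j).trans ?_
    rw [← Finset.mul_sum]
    refine Nat.mul_le_mul_left _ ?_
    rw [← Finset.card_biUnion]
    · exact Finset.card_le_card (Finset.biUnion_subset.2 fun j _ => Finset.filter_subset _ _)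
    · intro j _ j' _ hne
      refine Finset.disjoint_left.2 fun c a1 a2 => hne (Subtype.ext ?_)
      exact (Finset.mem_filter.1 a1).2.2.symm.trans (Finset.mem_filter.1 a2).2.2
  · have h1 : (∑ j, (ι' j).push (E j)).support ⊆
        Finset.univ.biUnion fun j => ((ι' j).push (E j)).support := fun c hc =>
      Finset.mem_biUnion.2 (supp_sum _ _ hc)
    refine (Finset.card_le_card h1).trans (Finset.card_biUnion_le.trans ?_)
    rw [Finset.mul_sum]
    exact Finset.sum_le_sum fun j _ =>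
      ((ι' j).card_support_push _).trans (card_face _ (hE1 j))
  · rw [map_add, map_sum, ← EHom.push_bd, ← hβ, ← hsum,
      Finset.sum_congr rfl fun j _ => ((ι' j).push_bd (E j)).symm.trans (congrArg _ (hE2 j))]
    exact chain_add_self _
  · intro c hc
    rcases Finset.mem_union.1 (Finsupp.support_add hc) with h | h
    · unfold ch1 at h
      rw [map_sum] at h
      obtain ⟨p, hp, h⟩ := supp_sum _ _ h
      rw [EHom.push_single] at h
      exact ⟨_, _, supp_single h,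
        ((hY.bconn_near hD hp0 hp).map (φ.comp ψ).toEHom).mono (by omega)⟩
    · obtain ⟨j, -, h⟩ := supp_sum _ _ h
      obtain ⟨c', a1, rfl⟩ := Finset.mem_image.1 ((ι' j).support_push _ h)
      obtain ⟨x, s, rfl⟩ := hE1 j c' a1
      refine ⟨(ι' j).π x, s, rfl, ?_⟩
      have b1 := (hrep _ (Finset.mem_filter.1 (hc0 j)).1).1.map (φ.comp ψ).toEHom
      rw [hπ j _ (hz j)] at b1
      refine (b1.trans ((near_cvx (hK1 j) _ x).map (ι' j))).mono (Nat.add_le_add_left ?_ _)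
      exact Finset.single_le_sum (f := fun j => (K j).card) (fun _ _ => Nat.zero_le _)
        (Finset.mem_univ j)

end Pool.Agent.MP_df844f_gt
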